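import Pool.Agent.N20.EW.Stm2
import Pool.Agent.Y286.NV.Fin

/-!
# Project EW, leaf CLS: from all weights to representatives of classes
-/

set_option autoImplicit false
set_option linter.unusedSectionVars false

open scoped Classical BigOperators

noncomputable section

namespace Pool.Agent.N749.EW

open Pool.Agent.Y63.NV
open Pool.Agent.Y63.AWC (IsIrreducibleCharacter pSubgroupSetoid irr_comp)
open Pool.Agent.Y286.NV (nE nE_coe mem_conj isWt_comp centralValue_comp irr_class orbit_weights)
open Pool.Agent.N20.EW (FixW fixW S_CLS)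

variable {F : Type} [Field F] {G : Type} [Group G]

/-- the number of the fixed weights at `R` -/
def nW (p : ℕ) (red : integralClosure ℤ ℂ →+* F) (B : (G → F) → F) (α : MulAut G)
    (R : Subgroup G) : ℕ :=
  Nat.card {ξ : Subgroup.normalizer (R : Set G) → ℂ //
    IsWt p (R.subgroupOf (Subgroup.normalizer (R : Set G))) ξ ∧
    (∀ f : G → F, IsClassFun f → centralValue red ξ (fun x => f x) = B f) ∧ FixW α R ξ}

/-- transport of the fixed pairs -/
theorem fixW_iff (α : MulAut G) (h : G) (R : Subgroup G)
    (ξ : Subgroup.normalizer ((R.map (MulAut.conj h).toMonoidHom : Subgroup G) : Set G) → ℂ) :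
    FixW α (R.map (MulAut.conj h).toMonoidHom) ξ ↔ FixW α R (fun x => ξ (nE h R x)) := by
  constructor
  · rintro ⟨g, h1, h2⟩
    refine ⟨h⁻¹ * g * α h, fun x => ?_, fun x y hxy => ?_⟩
    · rw [← mem_conj (g := h) (Q := R) (x := x), h1, ← mem_conj (g := h) (Q := R)]
      have e1 : g * α (h * x * h⁻¹) * g⁻¹ =
          h * (h⁻¹ * g * α h * α x * (h⁻¹ * g * α h)⁻¹) * h⁻¹ := by
        rw [map_mul, map_mul, map_inv]
        group
      rw [e1]
    · apply h2
      rw [nE_coe, nE_coe, hxy, map_mul, map_mul, map_inv]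
      group
  · rintro ⟨g, h1, h2⟩
    refine ⟨h * g * (α h)⁻¹, fun x => ?_, fun x y hxy => ?_⟩
    · have e0 : x = h * (h⁻¹ * x * h) * h⁻¹ := by group
      have e1 : h * g * (α h)⁻¹ * α x * (h * g * (α h)⁻¹)⁻¹ =
          h * (g * α (h⁻¹ * x * h) * g⁻¹) * h⁻¹ := by
        rw [map_mul, map_mul, map_inv]
        group
      rw [e1, mem_conj, ← h1]
      conv_lhs => rw [e0]
      exact mem_conj
    · have hx := (nE h R).apply_symm_apply x
      have hy := (nE h R).apply_symm_apply y
      have e2 : (y : G) = h * (((nE h R).symm y : Subgroup.normalizer (R : Set G)) : G) * h⁻¹ := by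
        rw [← nE_coe, hy]
      have e3 : (x : G) = h * (((nE h R).symm x : Subgroup.normalizer (R : Set G)) : G) * h⁻¹ := by
        rw [← nE_coe, hx]
      have h3 := h2 ((nE h R).symm x) ((nE h R).symm y) (by
        have e4 : (((nE h R).symm y : Subgroup.normalizer (R : Set G)) : G) = h⁻¹ * y * h := by
          rw [e2]
          group
        rw [e4, hxy, e3, map_mul, map_mul, map_inv]
        group)
      change ξ (nE h R ((nE h R).symm y)) = ξ (nE h R ((nE h R).symm x)) at h3
      rw [hx, hy] at h3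
      exact h3

theorem nW_conj [Finite G] (p : ℕ) (red : integralClosure ℤ ℂ →+* F) (B : (G → F) → F)
    (α : MulAut G) (g : G) (Q : Subgroup G) :
    nW p red B α (Q.map (MulAut.conj g).toMonoidHom) = nW p red B α Q := by
  have hQ : ∀ x : Subgroup.normalizer (Q : Set G),
      x ∈ Q.subgroupOf (Subgroup.normalizer (Q : Set G)) ↔
      nE g Q x ∈ (Q.map (MulAut.conj g).toMonoidHom).subgroupOf
        (Subgroup.normalizer ((Q.map (MulAut.conj g).toMonoidHom : Subgroup G) : Set G)) := by
    intro x
    rw [Subgroup.mem_subgroupOf, Subgroup.mem_subgroupOf, nE_coe, mem_conj]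
  have hQ' : ∀ x, x ∈ (Q.map (MulAut.conj g).toMonoidHom).subgroupOf
        (Subgroup.normalizer ((Q.map (MulAut.conj g).toMonoidHom : Subgroup G) : Set G)) ↔
      (nE g Q).symm x ∈ Q.subgroupOf (Subgroup.normalizer (Q : Set G)) := by
    intro x
    rw [hQ, (nE g Q).apply_symm_apply]
  have hcl : ∀ f : G → F, IsClassFun f →
      IsClassFun (fun y : Subgroup.normalizer
        ((Q.map (MulAut.conj g).toMonoidHom : Subgroup G) : Set G) => f y) :=
    fun f hf a b => hf a b
  have hres : ∀ f : G → F, IsClassFun f → (fun x : Subgroup.normalizer (Q : Set G) =>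
      (fun y : Subgroup.normalizer ((Q.map (MulAut.conj g).toMonoidHom : Subgroup G) : Set G) =>
        f y) (nE g Q x)) = fun x : Subgroup.normalizer (Q : Set G) => f x := by
    intro f hf
    funext x
    show f (nE g Q x : Subgroup.normalizer _) = f x
    rw [nE_coe]
    exact hf g x
  have hval : ∀ (χ : Subgroup.normalizer
      ((Q.map (MulAut.conj g).toMonoidHom : Subgroup G) : Set G) → ℂ), IsIrreducibleCharacter χ →
      ∀ f : G → F, IsClassFun f → centralValue red (fun x => χ (nE g Q x)) (fun x => f x) =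
        centralValue red χ (fun x => f x) := by
    intro χ hχ f hf
    rw [← centralValue_comp red (nE g Q) χ (irr_class hχ) (fun x => f x) (hcl f hf),
      hres f hf]
  have hback : ∀ (χ : Subgroup.normalizer (Q : Set G) → ℂ),
      (fun x => (fun y => χ ((nE g Q).symm y)) (nE g Q x)) = χ := by
    intro χ
    funext x
    show χ ((nE g Q).symm (nE g Q x)) = χ x
    rw [(nE g Q).symm_apply_apply]
  unfold nW
  refine Nat.card_congr
    { toFun := fun χ => ⟨fun x => χ.1 (nE g Q x), isWt_comp (nE g Q) hQ χ.2.1, ?_, ?_⟩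
      invFun := fun χ => ⟨fun x => χ.1 ((nE g Q).symm x), isWt_comp (nE g Q).symm hQ' χ.2.1, ?_, ?_⟩
      left_inv := ?_
      right_inv := ?_ }
  · intro f hf
    rw [hval χ.1 χ.2.1.irr f hf]
    exact χ.2.2.1 f hf
  · exact (fixW_iff α g Q χ.1).1 χ.2.2.2
  · intro f hf
    have h1 := hval (fun x => χ.1 ((nE g Q).symm x)) (irr_comp (nE g Q).symm χ.2.1.irr) f hf
    rw [hback χ.1] at h1
    rw [← h1]
    exact χ.2.2.1 f hf
  · refine (fixW_iff α g Q _).2 ?_
    rw [hback χ.1]
    exact χ.2.2.2
  · intro χ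
    apply Subtype.ext
    funext x
    show χ.1 (nE g Q ((nE g Q).symm x)) = χ.1 x
    rw [(nE g Q).apply_symm_apply]
  · intro χ
    apply Subtype.ext
    funext x
    show χ.1 ((nE g Q).symm (nE g Q x)) = χ.1 x
    rw [(nE g Q).symm_apply_apply]

theorem CLS : S_CLS := by
  intro p _ F _ red G _ _ α B
  have h1 : fixW p red B α = ∑ᶠ q : Quotient (pSubgroupSetoid p G), nW p red B α q.out.1 := rfl
  rw [h1, orbit_weights p (nW p red B α) (fun g Q => nW_conj p red B α g Q),
    finsum_subtype_eq_finsum_cond (fun Q : Subgroup G => IsPGroup p Q)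
      (f := fun Q : Subgroup G => Nat.card (Subgroup.normalizer (Q : Set G)) * nW p red B α Q)]
  refine finsum_congr fun R => ?_
  rw [finsum_eq_if]
  rfl

end Pool.Agent.N749.EW
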