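import Pool.Agent.N749.BGBase

/-!
# BG/PI: a nonzero ideal contains all long roots, arbitrary indefinite signature
-/

set_option autoImplicit false

noncomputable section

namespace Pool.Agent.N749.BGPI

open Matrix
open Pool.Agent.N208.BT Pool.Agent.N749.BG

variable {N : ℕ} {sg : Fin N → ℝ}

lemma skew_iR (a : VN N) : IsSks sg (Complex.I • Rs sg a a) := by
  intro x y
  rw [Matrix.smul_mulVec, Matrix.smul_mulVec, Rs_apply, Rs_apply, hs_smul_left, hs_smul_left,
    hs_smul_right, hs_smul_right, ← hs_conj y a]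
  simp only [Complex.star_def, Complex.conj_I]
  ring

lemma skew_scal {c : ℂ} (hc : star c = -c) : IsSks sg (c • (1 : MN N)) := by
  intro x y
  rw [Matrix.smul_mulVec, Matrix.smul_mulVec, Matrix.one_mulVec, Matrix.one_mulVec, hs_smul_left,
    hs_smul_right, hc]
  ring

lemma skew_sub {X Y : MN N} (hX : IsSks sg X) (hY : IsSks sg Y) : IsSks sg (X - Y) := by
  intro x y
  have h1 := hX x y
  have h2 := hY x y
  rw [Matrix.sub_mulVec, Matrix.sub_mulVec, hs_sub_left, hs_sub_right]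
  linear_combination h1 - h2

/-- the main step -/
lemma step {𝔫 : Submodule ℝ (MN N)} (h1 : ∀ X ∈ 𝔫, IsSks sg X ∧ X.trace = 0)
    (h2 : ∀ x : VN N, hs sg x x = 0 →
      ∀ Y ∈ 𝔫, (Complex.I • Rs sg x x) * Y - Y * (Complex.I • Rs sg x x) ∈ 𝔫)
    {X : MN N} (hX : X ∈ 𝔫) {u : VN N} (hu : hs sg u u = 0) (hc : hs sg (X *ᵥ u) u ≠ 0) :
    Complex.I • Rs sg u u ∈ 𝔫 := by
  have h3 := h2 u hu _ (h2 u hu X hX)
  obtain ⟨c, hcd⟩ : ∃ c, c = hs sg (X *ᵥ u) u := ⟨_, rfl⟩
  have hc0 : c ≠ 0 := by rw [hcd]; exact hc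
  have hcs : star c = -c := by
    have h4 := (h1 X hX).1 u u
    rw [hs_conj (X *ᵥ u) u, ← hcd] at h4
    linear_combination h4
  have hRR : Rs sg u u * Rs sg u u = 0 := by rw [Rs_mul_Rs, hu, zero_smul]
  have hRXR : Rs sg u u * X * Rs sg u u = c • Rs sg u u := by
    rw [mul_assoc, mul_Rs, Rs_mul_Rs, ← hcd]
  have e : (Complex.I • Rs sg u u) * ((Complex.I • Rs sg u u) * X - X * (Complex.I • Rs sg u u)) -
      ((Complex.I • Rs sg u u) * X - X * (Complex.I • Rs sg u u)) * (Complex.I • Rs sg u u) =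
      (2 * c) • Rs sg u u := by
    have e1 : (Complex.I • Rs sg u u) *
        ((Complex.I • Rs sg u u) * X - X * (Complex.I • Rs sg u u)) -
      ((Complex.I • Rs sg u u) * X - X * (Complex.I • Rs sg u u)) * (Complex.I • Rs sg u u) =
      (Complex.I * Complex.I) • (Rs sg u u * Rs sg u u * X) -
        (2 * (Complex.I * Complex.I)) • (Rs sg u u * X * Rs sg u u) +
        (Complex.I * Complex.I) • (X * (Rs sg u u * Rs sg u u)) := by
      simp only [mul_sub, sub_mul, smul_mul_assoc, mul_smul_comm, smul_smul, mul_assoc]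
      module
    rw [e1, hRR, hRXR, Complex.I_mul_I, zero_mul, mul_zero, smul_zero]
    module
  rw [e] at h3
  have h5 : star (Complex.I / (2 * c)) = Complex.I / (2 * c) := by
    rw [star_div₀, star_mul', hcs]
    simp only [Complex.star_def, Complex.conj_I, map_ofNat]
    rw [mul_neg, neg_div_neg_eq]
  have h6 := real_mem h3 h5
  rw [smul_smul, div_mul_cancel₀ _ (mul_ne_zero two_ne_zero hc0)] at h6
  exact h6

/-- from one long root to a long root which is not orthogonal to it -/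
lemma step2 {𝔫 : Submodule ℝ (MN N)} (h1 : ∀ X ∈ 𝔫, IsSks sg X ∧ X.trace = 0)
    (h2 : ∀ x : VN N, hs sg x x = 0 →
      ∀ Y ∈ 𝔫, (Complex.I • Rs sg x x) * Y - Y * (Complex.I • Rs sg x x) ∈ 𝔫)
    {u v : VN N} (hU : Complex.I • Rs sg u u ∈ 𝔫) (hv : hs sg v v = 0) (huv : hs sg u v ≠ 0) :
    Complex.I • Rs sg v v ∈ 𝔫 := by
  refine step h1 h2 hU hv ?_
  rw [Matrix.smul_mulVec, Rs_apply, hs_smul_left, hs_smul_left]
  refine mul_ne_zero Complex.I_ne_zero (mul_ne_zero ?_ huv)
  intro h8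
  apply huv
  rw [hs_conj, h8, star_zero]

/-- polarization -/
lemma polar (hsg : IsSg sg) {X : MN N} (h : ∀ a : VN N, hs sg (X *ᵥ a) a = 0) : X = 0 := by
  apply mat_ext
  intro b
  rw [Matrix.zero_mulVec]
  refine hs_nondeg hsg fun a => ?_
  have key : ∀ a b : VN N, hs sg (X *ᵥ a) b + hs sg (X *ᵥ b) a = 0 := by
    intro a b
    have h1 := h (a + b)
    rw [Matrix.mulVec_add, hs_add_left, hs_add_right, hs_add_right, h a, h b] at h1
    linear_combination h1
  have h1 := key b a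
  have h2 := key b (Complex.I • a)
  rw [Matrix.mulVec_smul, hs_smul_left, hs_smul_right] at h2
  simp only [Complex.star_def, Complex.conj_I] at h2
  have h3 : hs sg (X *ᵥ b) a = 0 := by
    have h4 : (2 * Complex.I) * hs sg (X *ᵥ b) a = 0 := by
      linear_combination Complex.I * h1 - h2
    rcases mul_eq_zero.1 h4 with h5 | h5
    · exact absurd h5 (mul_ne_zero two_ne_zero Complex.I_ne_zero)
    · exact h5
  rw [hs_conj, h3, star_zero]

/-- the euclidean dual -/
def D (sg : Fin N → ℝ) (x : VN N) : VN N := fun i => (sg i : ℂ) * x i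

lemma hs_D (hsg : IsSg sg) (x y : VN N) : hs sg x (D sg y) = ∑ i, x i * star (y i) := by
  unfold hs D
  refine Finset.sum_congr rfl fun i _ => ?_
  rw [star_mul', star_ofReal]
  linear_combination (x i * star (y i)) * sg_sq hsg i

lemma hs_DD (hsg : IsSg sg) (x y : VN N) : hs sg (D sg x) (D sg y) = hs sg x y := by
  rw [hs_D hsg]
  rfl

lemma hs_D_self (hsg : IsSg sg) {x : VN N} (hx : x ≠ 0) : hs sg x (D sg x) ≠ 0 := by
  rw [hs_D hsg]
  have h1 : ∑ i, x i * star (x i) = ((∑ i, ‖x i‖ ^ 2 : ℝ) : ℂ) := by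
    push_cast
    exact Finset.sum_congr rfl fun i _ => Complex.mul_conj' _
  rw [h1]
  obtain ⟨i, hi⟩ := Function.ne_iff.1 hx
  have h2 : 0 < ∑ i, ‖x i‖ ^ 2 := by
    have h3 : 0 < ‖x i‖ ^ 2 := by
      have : 0 < ‖x i‖ := norm_pos_iff.2 hi
      positivity
    exact lt_of_lt_of_le h3 (Finset.single_le_sum (f := fun i => ‖x i‖ ^ 2)
      (fun i _ => by positivity) (Finset.mem_univ i))
  exact_mod_cast h2.ne'

lemma hs_D_comm (hsg : IsSg sg) (x y : VN N) : hs sg y (D sg x) = star (hs sg x (D sg y)) := by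
  rw [hs_D hsg, hs_D hsg, star_sum]
  refine Finset.sum_congr rfl fun i _ => ?_
  rw [star_mul', star_star, mul_comm]

/-- a common neighbour -/
lemma exists_w (hsg : IsSg sg) {u v : VN N} (hu0 : u ≠ 0) (hv0 : v ≠ 0) (hu : hs sg u u = 0)
    (hv : hs sg v v = 0) (huv : hs sg u v = 0) :
    ∃ w : VN N, hs sg w w = 0 ∧ hs sg u w ≠ 0 ∧ hs sg w v ≠ 0 := by
  have hns : ∀ x y : VN N, hs sg y x ≠ 0 → hs sg x y ≠ 0 := by
    intro x y h h'
    apply h
    rw [hs_conj, h', star_zero]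
  by_cases h : hs sg u (D sg v) = 0
  · refine ⟨D sg u + D sg v, ?_, ?_, hns _ _ ?_⟩
    · rw [hs_add_left, hs_add_right, hs_add_right, hs_DD hsg, hs_DD hsg, hs_DD hsg, hs_DD hsg,
        hu, hv, huv, hs_conj u v, huv]
      simp
    · rw [hs_add_right, h, add_zero]
      exact hs_D_self hsg hu0
    · rw [hs_add_right, hs_D_comm hsg u v, h, star_zero, zero_add]
      exact hs_D_self hsg hv0
  · refine ⟨D sg v, ?_, h, hns _ _ (hs_D_self hsg hv0)⟩
    rw [hs_DD hsg, hv]

theorem main : G_SU → G_PI := by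
  intro hSU N sg hsg hm 𝔫 h1 h2 h3 v hv
  -- (A)
  obtain ⟨X, hX, u, hu, hc⟩ : ∃ X ∈ 𝔫, ∃ u : VN N, hs sg u u = 0 ∧ hs sg (X *ᵥ u) u ≠ 0 := by
    by_contra hcon
    push Not at hcon
    obtain ⟨X, hX, hX0⟩ := h3
    apply hX0
    have htr : ∀ Z : MN N, IsSks sg Z → Z.trace = 0 → (X * Z).trace = 0 := by
      intro Z hZ hZt
      have hmem := hSU N sg hsg hm Z hZ hZt
      refine Submodule.span_induction (p := fun Z _ => (X * Z).trace = 0) ?_ ?_ ?_ ?_ hmem
      · rintro Y ⟨x, hx, rfl⟩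
        rw [mul_smul_comm, Matrix.trace_smul, mul_Rs, trace_Rs, hcon X hX x hx, smul_zero]
      · rw [mul_zero, Matrix.trace_zero]
      · intro Y Z _ _ hY hZ
        rw [mul_add, Matrix.trace_add, hY, hZ, add_zero]
      · intro c Y _ hY
        rw [mul_smul_comm, Matrix.trace_smul, hY, smul_zero]
    apply polar hsg
    intro a
    have hn : (N : ℂ) ≠ 0 := by
      intro h0
      have h0' : N = 0 := by exact_mod_cast h0
      subst h0'
      obtain ⟨i, -⟩ := hm.1
      exact i.elim0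
    have hst : star (Complex.I * hs sg a a / (N : ℂ)) = -(Complex.I * hs sg a a / (N : ℂ)) := by
      rw [star_div₀, star_mul', hs_self, star_natCast]
      simp only [Complex.star_def, Complex.conj_I]
      ring
    have h4 := htr (Complex.I • Rs sg a a - (Complex.I * hs sg a a / (N : ℂ)) • (1 : MN N))
      (skew_sub (skew_iR a) (skew_scal hst)) (by
        rw [Matrix.trace_sub, Matrix.trace_smul, Matrix.trace_smul, trace_Rs, Matrix.trace_one,
          Fintype.card_fin, smul_eq_mul, smul_eq_mul]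
        field_simp
        ring)
    rw [mul_sub, mul_smul_comm, mul_smul_comm, mul_one, Matrix.trace_sub, Matrix.trace_smul,
      Matrix.trace_smul, (h1 X hX).2, smul_zero, sub_zero, mul_Rs, trace_Rs, smul_eq_mul] at h4
    rcases mul_eq_zero.1 h4 with h5 | h5
    · exact absurd h5 Complex.I_ne_zero
    · exact h5
  have hu0 : u ≠ 0 := by
    rintro rfl
    rw [Matrix.mulVec_zero, hs_zero_left] at hc
    exact hc rfl
  have hU := step h1 h2 hX hu hc
  -- (B)
  by_cases hv0 : v = 0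
  · rw [hv0, Rs_zero_left, smul_zero]
    exact 𝔫.zero_mem
  by_cases huv : hs sg u v = 0
  · obtain ⟨w, hw, huw, hwv⟩ := exists_w hsg hu0 hv0 hu hv huv
    exact step2 h1 h2 (step2 h1 h2 hU hw huw) hv hwv
  · exact step2 h1 h2 hU hv huv

end Pool.Agent.N749.BGPI
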