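import Pool.Agent.N749.BGBase

/-!
# BG/SU: the skew operators of trace zero are spanned by the long roots, arbitrary signature
-/

set_option autoImplicit false

noncomputable section

namespace Pool.Agent.N749.BGSU

open Matrix
open Pool.Agent.N208.BT Pool.Agent.N749.BG

variable {N : ℕ} {sg : Fin N → ℝ}

/-- the span of the long roots -/
def S (sg : Fin N → ℝ) : Submodule ℝ (MN N) :=
  Submodule.span ℝ {Y : MN N | ∃ x : VN N, hs sg x x = 0 ∧ Y = Complex.I • Rs sg x x}

/-- the span of the long roots and of the scalars -/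
def T (sg : Fin N → ℝ) : Submodule ℝ (MN N) := S sg ⊔ Submodule.span ℝ {Complex.I • (1 : MN N)}

/-- `i R(a, a)` -/
def q (sg : Fin N → ℝ) (a : VN N) : MN N := Complex.I • Rs sg a a

/-- the cross terms -/
def cr (sg : Fin N → ℝ) (a b : VN N) : MN N := Complex.I • (Rs sg a b + Rs sg b a)

lemma S_le : S sg ≤ T sg := le_sup_left

lemma q_iso {x : VN N} (h : hs sg x x = 0) : q sg x ∈ S sg := Submodule.subset_span ⟨x, h, rfl⟩

lemma q_add (a b : VN N) : q sg (a + b) = q sg a + q sg b + cr sg a b := by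
  unfold q cr
  rw [Rs_add_left, Rs_add_right, Rs_add_right]
  module

lemma q_smul (c : ℂ) (a : VN N) : q sg (c • a) = (c * star c) • q sg a := by
  unfold q
  rw [Rs_smul_left, Rs_smul_right]
  module

lemma cr_add_left (a b c : VN N) : cr sg (a + b) c = cr sg a c + cr sg b c := by
  unfold cr
  rw [Rs_add_left, Rs_add_right]
  module

lemma cr_symm (a b : VN N) : cr sg a b = cr sg b a := by
  unfold cr
  rw [add_comm]

lemma cr_add_right (a b c : VN N) : cr sg a (b + c) = cr sg a b + cr sg a c := by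
  rw [cr_symm, cr_add_left, cr_symm b, cr_symm c]

lemma cr_real (t : ℝ) (a b : VN N) : cr sg ((t : ℂ) • a) b = t • cr sg a b := by
  unfold cr
  rw [Rs_smul_left, Rs_smul_right, star_ofReal, ← smul_add, ← Complex.coe_smul t, smul_comm]

lemma star_unit {c : ℂ} (hc : c * star c = 1) : (-c) * star (-c) = 1 := by
  rw [star_neg, neg_mul_neg, hc]

lemma hs_e_self (i : Fin N) : hs sg (e i) (e i) = sg i := by
  rw [hs_e]; unfold e; rw [Pi.single_eq_same, mul_one]

lemma hs_e_ne {i j : Fin N} (h : i ≠ j) : hs sg (e i) (e j) = 0 := by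
  rw [hs_e]; unfold e; rw [Pi.single_eq_of_ne h.symm, mul_zero]

lemma ne_of_sg {i j : Fin N} (h : sg i = - sg j) (hsg : IsSg sg) : i ≠ j := by
  rintro rfl
  rcases hsg i with h2 | h2 <;> rw [h2] at h <;> norm_num at h

lemma q_two (hsg : IsSg sg) {i j : Fin N} (h : sg i = - sg j) {c : ℂ} (hc : c * star c = 1) :
    q sg (c • e i + e j) ∈ S sg := by
  apply q_iso
  have hij := ne_of_sg h hsg
  rw [hs_add_left, hs_add_right, hs_add_right, hs_smul_left, hs_smul_right, hs_smul_left,
    hs_smul_right, hs_e_ne hij, hs_e_ne hij.symm, hs_e_self, hs_e_self, h]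
  push_cast
  linear_combination (-(sg j : ℂ)) * hc

lemma half {Y : MN N} (h : Y + Y ∈ S sg) : Y ∈ S sg := by
  have h7 := (S sg).smul_mem (1 / 2 : ℝ) h
  rwa [← two_smul ℝ Y, smul_smul, show (1 / 2 : ℝ) * 2 = 1 by norm_num, one_smul] at h7

lemma cr_neg_left (a b : VN N) : cr sg (-a) b = - cr sg a b := by
  have := cr_real (sg := sg) (-1) a b
  simpa using this

lemma pair (hsg : IsSg sg) {i j : Fin N} (h : sg i = - sg j) :
    q sg (e i) + q sg (e j) ∈ S sg := by
  have h1 := q_two hsg h (c := 1) (by simp)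
  have h2 := q_two hsg h (c := -1) (by simp)
  rw [q_add, q_smul] at h1 h2
  apply half
  have h3 := (S sg).add_mem h1 h2
  have h4 : (1 : ℂ) * star (1 : ℂ) = 1 := by simp
  have h5 : (-1 : ℂ) * star (-1 : ℂ) = 1 := by simp
  rw [h4, h5, one_smul, one_smul, neg_one_smul, cr_neg_left] at h3
  convert h3 using 1
  abel

lemma cr_opp (hsg : IsSg sg) {i j : Fin N} (h : sg i = - sg j) {c : ℂ} (hc : c * star c = 1) :
    cr sg (c • e i) (e j) ∈ S sg := by
  have h1 := q_two hsg h hc
  rw [q_add, q_smul, hc, one_smul] at h1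
  have h2 := (S sg).sub_mem h1 (pair hsg h)
  rwa [add_sub_cancel_left] at h2

lemma cr_opp' (hsg : IsSg sg) {i j : Fin N} (h : sg i = - sg j) (c : ℂ) :
    cr sg (c • e i) (e j) ∈ S sg := by
  have h1 : c • (e i : VN N) = ((c.re : ℝ) : ℂ) • ((1 : ℂ) • (e i : VN N)) +
      ((c.im : ℝ) : ℂ) • (Complex.I • (e i : VN N)) := by
    rw [smul_smul, smul_smul, ← add_smul, mul_one, Complex.re_add_im]
  rw [h1, cr_add_left, cr_real, cr_real]
  refine (S sg).add_mem ((S sg).smul_mem _ (cr_opp hsg h (by simp)))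
    ((S sg).smul_mem _ (cr_opp hsg h (by simp)))

lemma exists_opp (hsg : IsSg sg) (hm : Mixed sg) (i : Fin N) : ∃ k, sg i = - sg k := by
  obtain ⟨⟨a, ha⟩, ⟨b, hb⟩⟩ := hm
  rcases hsg i with h | h
  · exact ⟨b, by rw [h, hb]; norm_num⟩
  · exact ⟨a, by rw [h, ha]⟩

lemma opp_of_ne (hsg : IsSg sg) {i j : Fin N} (h : sg i ≠ sg j) : sg i = - sg j := by
  rcases hsg i with h1 | h1 <;> rcases hsg j with h2 | h2
  · exact absurd (h1.trans h2.symm) h
  · rw [h1, h2]; norm_num
  · rw [h1, h2]
  · exact absurd (h1.trans h2.symm) h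

lemma q_e0 (hsg : IsSg sg) (hm : Mixed sg) (i : Fin N) : q sg (e i) ∈ T sg := by
  -- all `sg j • q (e j)` are congruent to `sg i • q (e i)` modulo `S`
  have h1 : ∀ j, (sg j) • q sg (e j) - (sg i) • q sg (e i) ∈ S sg := by
    intro j
    obtain ⟨k, hk⟩ := exists_opp hsg hm j
    by_cases hij : sg i = sg j
    · have h2 := pair hsg hk
      have h3 := pair hsg (show sg i = - sg k by rw [hij, hk])
      have h4 := (S sg).smul_mem (sg j) ((S sg).sub_mem h2 h3)
      rw [hij]
      convert h4 using 1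
      module
    · have h5 : sg i = - sg j := opp_of_ne hsg hij
      have h4 := (S sg).smul_mem (sg j) (pair hsg h5)
      rw [h5]
      convert h4 using 1
      module
  have h2 : ∑ j, ((sg j) • q sg (e j) - (sg i) • q sg (e i)) ∈ T sg :=
    S_le ((S sg).sum_mem fun j _ => h1 j)
  have h3 : Complex.I • (1 : MN N) ∈ T sg :=
    Submodule.mem_sup_right (Submodule.mem_span_singleton_self _)
  have h4 := (T sg).sub_mem h3 h2
  have h5 : Complex.I • (1 : MN N) - ∑ j, ((sg j) • q sg (e j) - (sg i) • q sg (e i)) =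
      ((N : ℝ) * sg i) • q sg (e i) := by
    have h6 : Complex.I • (1 : MN N) = ∑ j, (sg j) • q sg (e j) := by
      conv_lhs => rw [one_eq hsg]
      rw [Finset.smul_sum]
      refine Finset.sum_congr rfl fun j _ => ?_
      unfold q
      rw [← Complex.coe_smul, smul_comm]
    rw [h6, Finset.sum_sub_distrib, Finset.sum_const, Finset.card_univ, Fintype.card_fin,
      sub_sub_cancel, mul_smul, Nat.cast_smul_eq_nsmul]
  rw [h5] at h4
  have hN : (N : ℝ) ≠ 0 := by
    intro h0
    have h0' : N = 0 := by exact_mod_cast h0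
    subst h0'
    exact i.elim0
  have hi : sg i ≠ 0 := by
    rcases hsg i with h | h <;> rw [h] <;> norm_num
  have h6 := (T sg).smul_mem ((N : ℝ) * sg i)⁻¹ h4
  rwa [smul_smul, inv_mul_cancel₀ (mul_ne_zero hN hi), one_smul] at h6

lemma cr_unit (hsg : IsSg sg) (hm : Mixed sg) {i j : Fin N} (hij : i ≠ j) {c : ℂ}
    (hc : c * star c = 1) : cr sg (c • e i) (e j) ∈ T sg := by
  by_cases h : sg i = sg j
  · obtain ⟨k, hk⟩ := exists_opp hsg hm j
    have hki : i ≠ k := ne_of_sg (show sg i = - sg k by rw [h, hk]) hsg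
    have hkj : j ≠ k := ne_of_sg hk hsg
    have hw : ((1 : ℂ) + Complex.I) * star ((1 : ℂ) + Complex.I) = 2 := by
      rw [star_add, star_one, Complex.star_def, Complex.conj_I]
      linear_combination (-1 : ℂ) * Complex.I_sq
    have h1 : q sg (c • e i + e j + ((1 : ℂ) + Complex.I) • e k) ∈ S sg := by
      apply q_iso
      simp only [hs_add_left, hs_add_right, hs_smul_left, hs_smul_right, hs_e_self,
        hs_e_ne hij, hs_e_ne hij.symm, hs_e_ne hki, hs_e_ne hki.symm, hs_e_ne hkj,
        hs_e_ne hkj.symm, h, hk]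
      push_cast
      linear_combination (-(sg k : ℂ)) * hc + (sg k : ℂ) * hw
    rw [q_add, q_add, q_smul, q_smul, hc, hw, one_smul, cr_add_left] at h1
    have h2 : cr sg (c • e i) (((1 : ℂ) + Complex.I) • e k) ∈ S sg := by
      have h3 : cr sg (c • e i) (((1 : ℂ) + Complex.I) • e k) =
          cr sg ((c * star ((1 : ℂ) + Complex.I)) • e i) (e k) := by
        unfold cr
        simp only [Rs_smul_left, Rs_smul_right, star_mul', star_star]
        module
      rw [h3]
      exact cr_opp' hsg (show sg i = - sg k by rw [h, hk]) _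
    have h3 : cr sg (e j) (((1 : ℂ) + Complex.I) • e k) ∈ S sg := by
      rw [cr_symm]
      exact cr_opp' hsg (show sg k = - sg j by rw [hk, neg_neg]) _
    have h4 : (2 : ℂ) • q sg (e k) ∈ T sg := real_mem (q_e0 hsg hm k) (by simp)
    have h5 := (T sg).sub_mem (S_le h1) ((T sg).add_mem ((T sg).add_mem ((T sg).add_mem
      (q_e0 hsg hm i) (q_e0 hsg hm j)) h4) (S_le ((S sg).add_mem h2 h3)))
    convert h5 using 1
    abel
  · have h5 : sg i = - sg j := opp_of_ne hsg h
    exact S_le (cr_opp hsg h5 hc)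

lemma cr_ne (hsg : IsSg sg) (hm : Mixed sg) {i j : Fin N} (hij : i ≠ j) (c : ℂ) :
    cr sg (c • e i) (e j) ∈ T sg := by
  have h1 : c • (e i : VN N) = ((c.re : ℝ) : ℂ) • ((1 : ℂ) • (e i : VN N)) +
      ((c.im : ℝ) : ℂ) • (Complex.I • (e i : VN N)) := by
    rw [smul_smul, smul_smul, ← add_smul, mul_one, Complex.re_add_im]
  rw [h1, cr_add_left, cr_real, cr_real]
  refine (T sg).add_mem ((T sg).smul_mem _ (cr_unit hsg hm hij (by simp)))
    ((T sg).smul_mem _ (cr_unit hsg hm hij (by simp)))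

lemma anti_e (hsg : IsSg sg) (hm : Mixed sg) (c : ℂ) (i j : Fin N) :
    Rs sg (c • e i) (e j) - Rs sg (e j) (c • e i) ∈ T sg := by
  by_cases hij : i = j
  · subst hij
    have h1 : Rs sg (c • e i) (e i) - Rs sg (e i) (c • e i) =
        (((2 * c.im : ℝ)) : ℂ) • q sg (e i) := by
      unfold q
      rw [Rs_smul_left, Rs_smul_right, ← sub_smul, smul_smul]
      congr 1
      rw [Complex.star_def, Complex.sub_conj]
    rw [h1]
    exact real_mem (q_e0 hsg hm i) (star_ofReal _)
  · have h1 : Rs sg (c • e i) (e j) - Rs sg (e j) (c • e i) =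
        cr sg ((-Complex.I * c) • e i) (e j) := by
      unfold cr
      rw [Rs_smul_left, Rs_smul_right, Rs_smul_left, Rs_smul_right, smul_add, smul_smul, smul_smul,
        sub_eq_add_neg]
      congr 1
      · congr 1
        linear_combination c * Complex.I_sq
      · rw [← neg_smul]
        congr 1
        rw [star_mul', star_neg, Complex.star_def, Complex.conj_I]
        linear_combination (-(starRingEnd ℂ c)) * Complex.I_sq
    rw [h1]
    exact cr_ne hsg hm hij _

lemma anti_mem (hsg : IsSg sg) (hm : Mixed sg) (a : VN N) (j : Fin N) :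
    Rs sg a (e j) - Rs sg (e j) a ∈ T sg := by
  have h0 : ∀ (s : Finset (Fin N)) (f : Fin N → VN N),
      (∀ i ∈ s, Rs sg (f i) (e j) - Rs sg (e j) (f i) ∈ T sg) →
      Rs sg (∑ i ∈ s, f i) (e j) - Rs sg (e j) (∑ i ∈ s, f i) ∈ T sg := by
    intro s f
    induction s using Finset.induction_on with
    | empty =>
      intro _
      rw [Finset.sum_empty, Rs_zero_left, Rs_zero_right, sub_zero]
      exact (T sg).zero_mem
    | insert k s hk ih =>
      intro hf
      rw [Finset.sum_insert hk, Rs_add_left, Rs_add_right]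
      have h1 := hf k (Finset.mem_insert_self _ _)
      have h2 := ih fun i hi => hf i (Finset.mem_insert_of_mem hi)
      have h3 := (T sg).add_mem h1 h2
      convert h3 using 1
      abel
  have h1 : a = ∑ i, a i • (e i : VN N) := by
    funext k
    rw [Finset.sum_apply]
    unfold e
    simp [Pi.single_apply]
  rw [h1]
  exact h0 _ _ fun i _ => anti_e hsg hm _ _ _

lemma skew_mem (hsg : IsSg sg) (hm : Mixed sg) {X : MN N} (hX : IsSks sg X) : X ∈ T sg := by
  have h3 : X = ∑ j, (sg j : ℂ) • Rs sg (X *ᵥ e j) (e j) := by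
    conv_lhs => rw [← mul_one X, one_eq hsg, Finset.mul_sum]
    exact Finset.sum_congr rfl fun j _ => by rw [mul_smul_comm, mul_Rs]
  have h4 : X = ∑ j, (sg j : ℂ) • (- Rs sg (e j) (X *ᵥ e j)) := by
    conv_lhs => rw [← one_mul X, one_eq hsg, Finset.sum_mul]
    exact Finset.sum_congr rfl fun j _ => by rw [smul_mul_assoc, Rs_mul hX]
  have h5 : X + X = ∑ j, (sg j : ℂ) • (Rs sg (X *ᵥ e j) (e j) - Rs sg (e j) (X *ᵥ e j)) := by
    conv_lhs => 
      congr
      · rw [h3]
      · rw [h4]
    rw [← Finset.sum_add_distrib]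
    exact Finset.sum_congr rfl fun j _ => by rw [← smul_add, ← sub_eq_add_neg]
  have h6 : X + X ∈ T sg := by
    rw [h5]
    exact (T sg).sum_mem fun j _ => real_mem (anti_mem hsg hm _ _) (star_ofReal _)
  have h7 := (T sg).smul_mem (1 / 2 : ℝ) h6
  rwa [← two_smul ℝ X, smul_smul, show (1 / 2 : ℝ) * 2 = 1 by norm_num, one_smul] at h7

lemma trace_S {Y : MN N} (h : Y ∈ S sg) : Y.trace = 0 := by
  unfold S at h
  induction h using Submodule.span_induction with
  | mem x hx =>
    obtain ⟨a, ha, rfl⟩ := hx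
    rw [Matrix.trace_smul, trace_Rs, ha, smul_zero]
  | zero => exact Matrix.trace_zero _ _
  | add x y _ _ hx hy => rw [Matrix.trace_add, hx, hy, add_zero]
  | smul c x _ hx => rw [Matrix.trace_smul, hx, smul_zero]

/-- **BG/SU** -/
theorem main : G_SU := by
  intro N sg hsg hm X hX htr
  obtain ⟨Y, hY, Z, hZ, rfl⟩ := Submodule.mem_sup.1 (skew_mem hsg hm hX)
  obtain ⟨t, rfl⟩ := Submodule.mem_span_singleton.1 hZ
  have h1 := trace_S hY
  rw [Matrix.trace_add, h1, zero_add, Matrix.trace_smul, Matrix.trace_smul, Matrix.trace_one,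
    Fintype.card_fin] at htr
  have h2 : t = 0 := by
    by_contra ht
    rw [smul_eq_zero] at htr
    rcases htr with h | h
    · exact ht h
    · rw [smul_eq_zero] at h
      rcases h with h | h
      · exact Complex.I_ne_zero h
      · have h0 : N = 0 := by exact_mod_cast h
        subst h0
        obtain ⟨i, -⟩ := hm.1
        exact i.elim0
  rw [h2, zero_smul, add_zero]
  exact hY

end Pool.Agent.N749.BGSU
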