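import Mathlib
import Pool.Agent.N604.MW.Stm6

/-!
# Project KW (helper604), part DSUP: pointwise bound for the number of tuples
-/

set_option autoImplicit false

namespace Pool.Agent.N749.KWDSup

open Finset MeasureTheory Pool.Agent.N604.MW

theorem e_cont : Continuous e := by
  unfold e
  fun_prop

theorem e_nrm (x : ℝ) : ‖e x‖ = 1 := by
  unfold e
  rw [show (2 * (Real.pi : ℂ) * x * Complex.I) = ((2 * Real.pi * x : ℝ) : ℂ) * Complex.I by
    push_cast; ring]
  exact Complex.norm_exp_ofReal_mul_I _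

theorem e_sum {n : ℕ} (f : Fin n → ℝ) : e (∑ j, f j) = ∏ j, e (f j) := by
  unfold e
  rw [← Complex.exp_sum]
  congr 1
  push_cast
  rw [Finset.mul_sum, Finset.sum_mul]

theorem int_e (t : ℝ) : ∫ a, e (a * t) ∂G1 =
    ((Real.exp (-(2 * Real.pi ^ 2 * t ^ 2)) : ℝ) : ℂ) := by
  have h := ProbabilityTheory.charFun_gaussianReal (μ := 0) (v := 1) (2 * Real.pi * t)
  rw [MeasureTheory.charFun_apply_real] at h
  unfold G1
  have e1 : (fun a : ℝ => e (a * t)) = fun x : ℝ =>
      Complex.exp (((2 * Real.pi * t : ℝ) : ℂ) * (x : ℂ) * Complex.I) := by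
    funext a
    unfold e
    congr 1
    push_cast
    ring
  rw [e1, h, Complex.ofReal_exp]
  congr 1
  push_cast
  ring

theorem amgm {n : ℕ} (hn : n ≠ 0) (f : Fin n → ℝ) (hf : ∀ j, 0 ≤ f j) :
    ∏ j, f j ≤ ∑ j, (n : ℝ)⁻¹ * f j ^ n := by
  have hn' : (n : ℝ) ≠ 0 := Nat.cast_ne_zero.2 hn
  have h := Real.geom_mean_le_arith_mean_weighted univ (fun _ : Fin n => (n : ℝ)⁻¹)
    (fun j => f j ^ n) (fun _ _ => by positivity)
    (by rw [Finset.sum_const, Finset.card_univ, Fintype.card_fin, nsmul_eq_mul,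
      mul_inv_cancel₀ hn'])
    (fun j _ => pow_nonneg (hf j) n)
  refine le_trans (le_of_eq ?_) h
  refine Finset.prod_congr rfl fun j _ => ?_
  rw [Real.pow_rpow_inv_natCast (hf j) hn]

/-- the exponential sum -/
noncomputable def SS (k X : ℕ) (y a : ℝ) : ℂ := ∑ x ∈ Finset.Icc X (2 * X), e (a * y * (x : ℝ) ^ k)

theorem SS_cont (k X : ℕ) (y : ℝ) : Continuous (SS k X y) := by
  unfold SS
  exact continuous_finsetSum _ fun x _ => e_cont.comp (by fun_prop)

theorem SS_norm (k X : ℕ) (y a : ℝ) : ‖SS k X y a‖ ≤ X + 1 := by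
  unfold SS
  refine (norm_sum_le _ _).trans ?_
  simp only [e_nrm]
  rw [Finset.sum_const, Nat.card_Icc, nsmul_eq_mul, mul_one]
  have : 2 * X + 1 - X = X + 1 := by omega
  rw [this]
  push_cast
  exact le_refl _

instance : IsProbabilityMeasure G1 := by
  unfold G1
  infer_instance

theorem integrable_of {E : Type*} [NormedAddCommGroup E] [SecondCountableTopology E]
    [MeasurableSpace E] [BorelSpace E] {f : ℝ → E} (hf : Continuous f) (C : ℝ)
    (hC : ∀ a, ‖f a‖ ≤ C) : Integrable f G1 :=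
  (integrable_const C).mono' hf.aestronglyMeasurable (Filter.Eventually.of_forall hC)

theorem gd_le (m k X : ℕ) (hm : 0 < m) (δ : Fin (2 * m) → ℝ) :
    GD (2 * m) k X δ ≤ ∑ j, ((2 * m : ℕ) : ℝ)⁻¹ * MD m k X (δ j) := by
  have hn : 2 * m ≠ 0 := by omega
  have e1 : ∀ a : ℝ, ∏ j, SS k X (δ j) a =
      ∑ x ∈ Fintype.piFinset (fun _ : Fin (2 * m) => Finset.Icc X (2 * X)),
        e (a * ∑ j, δ j * (x j : ℝ) ^ k) := by
    intro a
    unfold SS
    rw [Finset.prod_univ_sum]
    refine Finset.sum_congr rfl fun x _ => ?_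
    rw [Finset.mul_sum, e_sum]
    refine Finset.prod_congr rfl fun j _ => ?_
    rw [mul_assoc]
  have e2 : ∫ a, ∏ j, SS k X (δ j) a ∂G1 = ((GD (2 * m) k X δ : ℝ) : ℂ) := by
    simp only [e1]
    rw [integral_finset_sum]
    · unfold GD
      rw [Complex.ofReal_sum]
      exact Finset.sum_congr rfl fun x _ => int_e _
    · intro x _
      exact integrable_of (e_cont.comp (by fun_prop)) 1 fun a => (e_nrm _).le
  have hpos : 0 ≤ GD (2 * m) k X δ := by
    unfold GD
    exact Finset.sum_nonneg fun x _ => (Real.exp_pos _).le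
  have e3 : GD (2 * m) k X δ = ‖∫ a, ∏ j, SS k X (δ j) a ∂G1‖ := by
    rw [e2, Complex.norm_real, Real.norm_of_nonneg hpos]
  have hb : ∀ j a, ‖SS k X (δ j) a‖ ^ (2 * m) ≤ ((X : ℝ) + 1) ^ (2 * m) := fun j a =>
    pow_le_pow_left₀ (norm_nonneg _) (SS_norm k X (δ j) a) _
  have i1 : ∀ j, Integrable (fun a => ‖SS k X (δ j) a‖ ^ (2 * m)) G1 := fun j =>
    integrable_of ((SS_cont k X (δ j)).norm.pow _) (((X : ℝ) + 1) ^ (2 * m)) fun a => by
      rw [norm_pow, norm_norm]
      exact hb j a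
  have i2 : Integrable (fun a => ∏ j, ‖SS k X (δ j) a‖) G1 := by
    refine integrable_of (continuous_finsetProd _ fun j _ => (SS_cont k X (δ j)).norm)
      (((X : ℝ) + 1) ^ (2 * m)) fun a => ?_
    rw [Real.norm_of_nonneg (Finset.prod_nonneg fun j _ => norm_nonneg _)]
    refine (Finset.prod_le_prod (fun j _ => norm_nonneg _) fun j _ => SS_norm k X (δ j) a).trans ?_
    rw [Finset.prod_const, Finset.card_univ, Fintype.card_fin]
  rw [e3]
  refine (norm_integral_le_integral_norm _).trans ?_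
  simp only [norm_prod]
  have e4 : ∫ a, ∑ j, ((2 * m : ℕ) : ℝ)⁻¹ * ‖SS k X (δ j) a‖ ^ (2 * m) ∂G1 =
      ∑ j, ((2 * m : ℕ) : ℝ)⁻¹ * MD m k X (δ j) := by
    rw [integral_finset_sum _ fun j _ => (i1 j).const_mul _]
    refine Finset.sum_congr rfl fun j _ => ?_
    rw [integral_const_mul]
    rfl
  rw [← e4]
  refine integral_mono i2 (integrable_finsetSum _ fun j _ => (i1 j).const_mul _) fun a => ?_
  exact amgm hn _ fun j => norm_nonneg _

theorem ud_le (n k X : ℕ) (T : ℝ) (hT : 0 < T) (γ : Fin n → ℝ) :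
    UD n k X T γ ≤ Real.exp (2 * Real.pi ^ 2) * GD n k X fun j => γ j / T := by
  classical
  unfold UD GD
  rw [Finset.mul_sum, Finset.card_filter]
  push_cast
  refine Finset.sum_le_sum fun x _ => ?_
  split_ifs with h
  · rw [← Real.exp_add]
    apply Real.one_le_exp
    have h1 : ∑ j, γ j / T * (x j : ℝ) ^ k = (∑ j, γ j * (x j : ℝ) ^ k) / T := by
      rw [Finset.sum_div]
      exact Finset.sum_congr rfl fun j _ => by ring
    have h2 : (∑ j, γ j / T * (x j : ℝ) ^ k) ^ 2 ≤ 1 := by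
      rw [h1, sq_le_one_iff_abs_le_one, abs_div, abs_of_pos hT, div_le_one hT]
      exact h
    have h3 := mul_le_mul_of_nonneg_left h2 (by positivity : 0 ≤ 2 * Real.pi ^ 2)
    linarith
  · exact mul_nonneg (Real.exp_pos _).le (Real.exp_pos _).le

theorem dsup (_h1 : S_CHAR) (h2 : S_DMV) : S_DSUP := by
  intro r m k hr hk hn
  obtain ⟨C, hC, X0, h⟩ := h2 r m k hr hk hn
  have hm : 0 < m := by
    have h3 : 0 < nr r := by
      unfold nr
      positivity
    omega
  refine ⟨Real.exp (2 * Real.pi ^ 2) * C, by positivity, max X0 3, ?_⟩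
  intro X γ hX hγ
  have hX3 : (3 : ℝ) ≤ X := by exact_mod_cast (le_max_right _ _).trans hX
  have T1 : 1 ≤ Real.log X := by
    rw [Real.le_log_iff_exp_le (by linarith)]
    have := Real.exp_one_lt_d9
    linarith
  have T0 : 0 < Real.log X := by linarith
  have s1 := ud_le (2 * m) k X (Real.log X) T0 γ
  have s2 := gd_le m k X hm fun j => γ j / Real.log X
  have s3 : ∀ j, MD m k X (γ j / Real.log X) ≤ C * Real.log X * (X : ℝ) ^ (2 * m - r) := by
    intro j
    refine h X _ ((le_max_left _ _).trans hX) ?_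
    rw [abs_div, abs_of_pos T0]
    exact div_le_div_of_nonneg_right (hγ j) T0.le
  have s4 : ∑ j, ((2 * m : ℕ) : ℝ)⁻¹ * MD m k X (γ j / Real.log X) ≤
      C * Real.log X * (X : ℝ) ^ (2 * m - r) := by
    calc ∑ j, ((2 * m : ℕ) : ℝ)⁻¹ * MD m k X (γ j / Real.log X)
        ≤ ∑ _j : Fin (2 * m), ((2 * m : ℕ) : ℝ)⁻¹ * (C * Real.log X * (X : ℝ) ^ (2 * m - r)) :=
          Finset.sum_le_sum fun j _ => mul_le_mul_of_nonneg_left (s3 j) (by positivity)
      _ = C * Real.log X * (X : ℝ) ^ (2 * m - r) := by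
          rw [Finset.sum_const, Finset.card_univ, Fintype.card_fin, nsmul_eq_mul, ← mul_assoc,
            mul_inv_cancel₀ (by positivity), one_mul]
  calc UD (2 * m) k X (Real.log X) γ ≤ Real.exp (2 * Real.pi ^ 2) *
        GD (2 * m) k X fun j => γ j / Real.log X := s1
    _ ≤ Real.exp (2 * Real.pi ^ 2) * (C * Real.log X * (X : ℝ) ^ (2 * m - r)) :=
        mul_le_mul_of_nonneg_left (s2.trans s4) (Real.exp_pos _).le
    _ = Real.exp (2 * Real.pi ^ 2) * C * Real.log X * (X : ℝ) ^ (2 * m - r) := by ring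

end Pool.Agent.N749.KWDSup
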