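import Pool.Agent.N208.BT.Stm5

/-!
# Project BG (helper208): algebra of the operators `Rs a b`, arbitrary signature
-/

set_option autoImplicit false

noncomputable section

namespace Pool.Agent.N749.BG

open Matrix
open Pool.Agent.N208.BT

variable {N : ℕ} {sg : Fin N → ℝ}

lemma hs_add_left (x y z : VN N) : hs sg (x + y) z = hs sg x z + hs sg y z := by
  unfold hs
  simp only [Pi.add_apply, mul_add, add_mul, Finset.sum_add_distrib]

lemma hs_smul_left (c : ℂ) (x y : VN N) : hs sg (c • x) y = c * hs sg x y := by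
  unfold hs
  rw [Finset.mul_sum]
  exact Finset.sum_congr rfl fun i _ => by rw [Pi.smul_apply, smul_eq_mul]; ring

lemma star_ofReal (r : ℝ) : star (r : ℂ) = (r : ℂ) := Complex.conj_ofReal r

lemma hs_conj (x y : VN N) : hs sg y x = star (hs sg x y) := by
  unfold hs
  rw [star_sum]
  refine Finset.sum_congr rfl fun i _ => ?_
  rw [star_mul', star_mul', star_star, star_ofReal]
  ring

lemma hs_add_right (x y z : VN N) : hs sg x (y + z) = hs sg x y + hs sg x z := by
  rw [hs_conj, hs_add_left, star_add, ← hs_conj, ← hs_conj]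

lemma hs_smul_right (c : ℂ) (x y : VN N) : hs sg x (c • y) = star c * hs sg x y := by
  rw [hs_conj, hs_smul_left, star_mul', ← hs_conj]

lemma hs_zero_left (y : VN N) : hs sg 0 y = 0 := by
  have := hs_smul_left (sg := sg) 0 (0 : VN N) y
  simpa using this

lemma hs_zero_right (y : VN N) : hs sg y 0 = 0 := by
  rw [hs_conj, hs_zero_left, star_zero]

lemma hs_neg_left (x y : VN N) : hs sg (-x) y = - hs sg x y := by
  rw [← neg_one_smul ℂ, hs_smul_left]; ring

lemma hs_neg_right (x y : VN N) : hs sg x (-y) = - hs sg x y := by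
  rw [hs_conj, hs_neg_left, star_neg, ← hs_conj]

lemma hs_sub_left (x y z : VN N) : hs sg (x - y) z = hs sg x z - hs sg y z := by
  rw [sub_eq_add_neg, hs_add_left, hs_neg_left]; ring

lemma hs_sub_right (x y z : VN N) : hs sg x (y - z) = hs sg x y - hs sg x z := by
  rw [sub_eq_add_neg, hs_add_right, hs_neg_right]; ring

lemma hs_self (x : VN N) : star (hs sg x x) = hs sg x x := (hs_conj x x).symm

/-- `hs` as a linear form -/
def hsL (sg : Fin N → ℝ) (b : VN N) : VN N →ₗ[ℂ] ℂ where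
  toFun x := hs sg x b
  map_add' x y := hs_add_left x y b
  map_smul' c x := hs_smul_left c x b

lemma hs_sum (x b : VN N) : hs sg x b = ∑ j, x j * hs sg (Pi.single j 1) b := by
  have h4 : hsL sg b x = hs sg x b := rfl
  rw [← h4, LinearMap.pi_apply_eq_sum_univ (hsL sg b) x]
  refine Finset.sum_congr rfl fun j _ => ?_
  rw [smul_eq_mul]
  congr 1
  have e : (fun k => if j = k then (1 : ℂ) else 0) = (Pi.single j 1 : VN N) := by
    funext k
    rw [Pi.single_apply]
    by_cases hjk : j = k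
    · rw [if_pos hjk, if_pos hjk.symm]
    · rw [if_neg hjk, if_neg (fun h => hjk h.symm)]
  rw [e]
  rfl

lemma Rs_apply (a b x : VN N) : Rs sg a b *ᵥ x = hs sg x b • a := by
  funext i
  have h2 : (Rs sg a b *ᵥ x) i = ∑ j, Rs sg a b i j * x j := rfl
  rw [h2, Pi.smul_apply, smul_eq_mul, hs_sum x b, Finset.sum_mul]
  refine Finset.sum_congr rfl fun j _ => ?_
  unfold Rs
  rw [Matrix.of_apply]
  ring

lemma mat_ext {A B : MN N} (h : ∀ x, A *ᵥ x = B *ᵥ x) : A = B := by
  apply Matrix.toLin'.injective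
  ext1 x
  apply LinearMap.ext
  intro y
  simp only [LinearMap.comp_apply, Matrix.toLin'_apply]
  exact h _

lemma Rs_add_left (a b c : VN N) : Rs sg (a + b) c = Rs sg a c + Rs sg b c := by
  apply mat_ext
  intro x
  rw [Matrix.add_mulVec, Rs_apply, Rs_apply, Rs_apply, smul_add]

lemma Rs_smul_left (c : ℂ) (a b : VN N) : Rs sg (c • a) b = c • Rs sg a b := by
  apply mat_ext
  intro x
  rw [Matrix.smul_mulVec, Rs_apply, Rs_apply, smul_comm]

lemma Rs_add_right (a b c : VN N) : Rs sg a (b + c) = Rs sg a b + Rs sg a c := by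
  apply mat_ext
  intro x
  rw [Matrix.add_mulVec, Rs_apply, Rs_apply, Rs_apply, hs_add_right, add_smul]

lemma Rs_smul_right (c : ℂ) (a b : VN N) : Rs sg a (c • b) = star c • Rs sg a b := by
  apply mat_ext
  intro x
  rw [Matrix.smul_mulVec, Rs_apply, Rs_apply, hs_smul_right, mul_smul]

lemma Rs_zero_left (b : VN N) : Rs sg 0 b = 0 := by
  have := Rs_smul_left (sg := sg) 0 (0 : VN N) b
  simpa using this

lemma Rs_zero_right (a : VN N) : Rs sg a 0 = 0 := by
  have := Rs_smul_right (sg := sg) 0 a (0 : VN N)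
  simpa using this

lemma trace_Rs (a b : VN N) : (Rs sg a b).trace = hs sg a b := by
  rw [hs_sum a b]
  rfl

lemma mul_Rs (X : MN N) (a b : VN N) : X * Rs sg a b = Rs sg (X *ᵥ a) b := by
  apply mat_ext
  intro x
  rw [← Matrix.mulVec_mulVec, Rs_apply, Rs_apply, Matrix.mulVec_smul]

lemma Rs_mul {X : MN N} (hX : IsSks sg X) (a b : VN N) : Rs sg a b * X = - Rs sg a (X *ᵥ b) := by
  apply mat_ext
  intro x
  rw [← Matrix.mulVec_mulVec, Rs_apply, Matrix.neg_mulVec, Rs_apply]
  have h3 : hs sg (X *ᵥ x) b = - hs sg x (X *ᵥ b) := by linear_combination hX x b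
  rw [h3, neg_smul]

lemma Rs_mul_Rs (a b c d : VN N) : Rs sg a b * Rs sg c d = hs sg c b • Rs sg a d := by
  rw [mul_Rs, Rs_apply, Rs_smul_left]

lemma real_mem {𝔫 : Submodule ℝ (MN N)} {Y : MN N} (h : Y ∈ 𝔫) {c : ℂ} (hc : star c = c) :
    c • Y ∈ 𝔫 := by
  have h1 : c = ((c.re : ℝ) : ℂ) := (Complex.conj_eq_iff_re.1 hc).symm
  rw [h1, Complex.coe_smul]
  exact 𝔫.smul_mem c.re h

/-- the basis vectors -/
def e (i : Fin N) : VN N := Pi.single i 1

lemma hs_e (x : VN N) (i : Fin N) : hs sg x (e i) = sg i * x i := by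
  unfold hs e
  rw [Finset.sum_eq_single i]
  · rw [Pi.single_eq_same, star_one, mul_one]
  · intro j _ hij
    rw [Pi.single_eq_of_ne hij, star_zero, mul_zero]
  · intro h
    exact absurd (Finset.mem_univ i) h

/-- the form is nondegenerate -/
theorem hs_nondeg (hsg : IsSg sg) {x : VN N} (h : ∀ y, hs sg y x = 0) : x = 0 := by
  funext i
  have h1 := h (e i)
  rw [hs_conj, hs_e, star_mul', star_ofReal] at h1
  have h0 : (sg i : ℂ) ≠ 0 := by
    rcases hsg i with h2 | h2 <;> rw [h2] <;> simp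
  rcases mul_eq_zero.1 h1 with h2 | h2
  · exact absurd h2 h0
  · exact star_eq_zero.1 h2

lemma sg_sq (hsg : IsSg sg) (i : Fin N) : (sg i : ℂ) * sg i = 1 := by
  rcases hsg i with h2 | h2 <;> rw [h2] <;> simp

lemma one_eq (hsg : IsSg sg) : (1 : MN N) = ∑ i, (sg i : ℂ) • Rs sg (e i) (e i) := by
  apply mat_ext
  intro x
  rw [Matrix.one_mulVec, Matrix.sum_mulVec]
  have h1 : ∀ i, ((sg i : ℂ) • Rs sg (e i) (e i)) *ᵥ x = x i • (e i : VN N) := by
    intro i
    rw [Matrix.smul_mulVec, Rs_apply, hs_e, smul_smul, ← mul_assoc, sg_sq hsg, one_mul]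
  rw [Finset.sum_congr rfl fun i _ => h1 i]
  funext k
  rw [Finset.sum_apply]
  unfold e
  simp [Pi.single_apply]

end Pool.Agent.N749.BG
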