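import Pool.Agent.N979.CAP.Stm

set_option autoImplicit false

/-!
# Project CAP (helper979), part GIN: integral bound for antiperiodic Lipschitz functions
-/

namespace Pool.Agent.N749.CAP

open Real

theorem main : Pool.Agent.N979.CAP.S_GIN := by
  intro s₀ hs0 hs1 g hanti hbd hlip φ
  have hpi := Real.pi_pos
  have hg : Continuous g := by
    have : LipschitzWith (Real.toNNReal s₀) g := by
      refine LipschitzWith.of_dist_le_mul fun x y => ?_
      rw [Real.dist_eq, Real.dist_eq, Real.coe_toNNReal _ hs0.le]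
      exact hlip x y
    exact this.continuous
  obtain ⟨r, hr⟩ : ∃ r, r = arcsin s₀ := ⟨_, rfl⟩
  rw [← hr] at hbd ⊢
  have hr0 : 0 < r := by rw [hr]; exact Real.arcsin_pos.2 hs0
  have hr1 : r ≤ π / 2 := by rw [hr]; exact Real.arcsin_le_pi_div_two _
  have hsr : sin r = s₀ := by rw [hr]; exact Real.sin_arcsin (by linarith) hs1.le
  obtain ⟨L, hLd⟩ : ∃ L, L = r / s₀ := ⟨_, rfl⟩
  rw [← hLd]
  have hLr : s₀ * L = r := by rw [hLd]; field_simp
  have hL : L ≤ π / 2 := by
    have h1 := Real.mul_le_sin hr0.le hr1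
    rw [hsr] at h1
    have h2 : 2 * r ≤ s₀ * π := by
      have h3 : 2 / π * r * π = 2 * r := by field_simp
      nlinarith
    have h3 : s₀ * L ≤ s₀ * (π / 2) := by rw [hLr]; linarith
    exact le_of_mul_le_mul_left h3 hs0
  have hL0 : 0 ≤ L := by rw [hLd]; positivity
  obtain ⟨p, hp⟩ : ∃ p, p = π / 2 - L := ⟨_, rfl⟩
  have hp0 : 0 ≤ p := by rw [hp]; linarith
  have hp1 : p ≤ π / 2 := by rw [hp]; linarith
  -- periodicity
  have hper : Function.Periodic (fun θ => cos (θ - φ) * g θ) π := by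
    intro θ
    simp only
    rw [hanti, show θ + π - φ = (θ - φ) + π by ring, cos_add_pi]
    ring
  have e1 : ∫ θ in (0 : ℝ)..π, cos (θ - φ) * g θ =
      ∫ θ in (φ + -(π / 2))..(φ + π / 2), cos (θ - φ) * g θ := by
    have := hper.intervalIntegral_add_eq 0 (φ + -(π / 2))
    rw [zero_add, show φ + -(π / 2) + π = φ + π / 2 by ring] at this
    exact this
  have e2 : ∫ θ in (φ + -(π / 2))..(φ + π / 2), cos (θ - φ) * g θ =
      ∫ ψ in (-(π / 2))..(π / 2), cos ψ * g (φ + ψ) := by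
    rw [← intervalIntegral.integral_comp_add_left (fun θ => cos (θ - φ) * g θ) φ]
    refine intervalIntegral.integral_congr fun ψ _ => ?_
    rw [show φ + ψ - φ = ψ by ring]
  have hc1 : Continuous fun ψ => cos ψ * g (φ + ψ) := by fun_prop
  have hc2 : Continuous fun ψ => cos ψ * g (φ + -ψ) := by fun_prop
  have e3 : ∫ ψ in (-(π / 2))..(π / 2), cos ψ * g (φ + ψ) =
      ∫ ψ in (0 : ℝ)..(π / 2), cos ψ * (g (φ + ψ) + g (φ + -ψ)) := by
    have h1 : ∫ ψ in (-(π / 2))..0, cos ψ * g (φ + ψ) =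
        ∫ ψ in (0 : ℝ)..(π / 2), cos ψ * g (φ + -ψ) := by
      have := intervalIntegral.integral_comp_neg (a := 0) (b := π / 2)
        (fun ψ => cos ψ * g (φ + ψ))
      simp only [cos_neg, neg_zero] at this
      exact this.symm
    rw [← intervalIntegral.integral_add_adjacent_intervals (b := 0)
      (hc1.intervalIntegrable _ _) (hc1.intervalIntegrable _ _), h1,
      ← intervalIntegral.integral_add (hc2.intervalIntegrable _ _) (hc1.intervalIntegrable _ _)]
    refine intervalIntegral.integral_congr fun ψ _ => ?_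
    ring
  have hc3 : Continuous fun ψ => cos ψ * (g (φ + ψ) + g (φ + -ψ)) := by fun_prop
  -- the bounds
  have b1 : ∀ ψ, g (φ + ψ) + g (φ + -ψ) ≤ 2 * r := by
    intro ψ
    have h1 := (abs_le.1 (hbd (φ + ψ))).2
    have h2 := (abs_le.1 (hbd (φ + -ψ))).2
    linarith
  have b2 : ∀ ψ, ψ ≤ π / 2 → g (φ + ψ) + g (φ + -ψ) ≤ 2 * s₀ * (π / 2 - ψ) := by
    intro ψ hψ
    have h1 := (abs_le.1 (hlip (φ + ψ) (φ + π / 2))).2
    have h2 := (abs_le.1 (hlip (φ + -ψ) (φ + -(π / 2)))).2
    rw [show φ + ψ - (φ + π / 2) = -(π / 2 - ψ) by ring, abs_neg,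
      abs_of_nonneg (by linarith : 0 ≤ π / 2 - ψ)] at h1
    rw [show φ + -ψ - (φ + -(π / 2)) = π / 2 - ψ by ring,
      abs_of_nonneg (by linarith : 0 ≤ π / 2 - ψ)] at h2
    have h3 := hanti (φ + -(π / 2))
    rw [show φ + -(π / 2) + π = φ + π / 2 by ring] at h3
    linarith
  have hcos : ∀ ψ, 0 ≤ ψ → ψ ≤ π / 2 → 0 ≤ cos ψ := fun ψ h1 h2 =>
    Real.cos_nonneg_of_neg_pi_div_two_le_of_le (by linarith) h2
  have i1 : ∫ ψ in (0 : ℝ)..p, cos ψ * (g (φ + ψ) + g (φ + -ψ)) ≤ 2 * r * sin p := by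
    have h1 : ∫ ψ in (0 : ℝ)..p, cos ψ * (2 * r) = 2 * r * sin p := by
      rw [intervalIntegral.integral_mul_const, integral_cos, sin_zero]
      ring
    rw [← h1]
    refine intervalIntegral.integral_mono_on hp0 (hc3.intervalIntegrable _ _)
      (Continuous.intervalIntegrable (by fun_prop) _ _) fun ψ hψ => ?_
    exact mul_le_mul_of_nonneg_left (b1 ψ) (hcos ψ hψ.1 (hψ.2.trans hp1))
  have i2 : ∫ ψ in p..(π / 2), cos ψ * (g (φ + ψ) + g (φ + -ψ)) ≤
      2 * s₀ * (cos p - L * sin p) := by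
    have h1 : ∫ ψ in p..(π / 2), cos ψ * (2 * s₀ * (π / 2 - ψ)) =
        2 * s₀ * (cos p - L * sin p) := by
      have h2 : ∀ ψ ∈ Set.uIcc p (π / 2),
          HasDerivAt (fun ψ => 2 * s₀ * ((π / 2 - ψ) * sin ψ - cos ψ))
            (cos ψ * (2 * s₀ * (π / 2 - ψ))) ψ := by
        intro ψ _
        have h3 := (((((hasDerivAt_id ψ).const_sub (π / 2)).mul (Real.hasDerivAt_sin ψ)).sub
          (Real.hasDerivAt_cos ψ)).const_mul (2 * s₀))
        refine h3.congr_deriv ?_
        simp only [id]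
        ring
      rw [intervalIntegral.integral_eq_sub_of_hasDerivAt h2
        (Continuous.intervalIntegrable (by fun_prop) _ _)]
      have h4 : π / 2 - p = L := by rw [hp]; ring
      rw [h4, cos_pi_div_two]
      ring
    rw [← h1]
    refine intervalIntegral.integral_mono_on hp1 (hc3.intervalIntegrable _ _)
      (Continuous.intervalIntegrable (by fun_prop) _ _) fun ψ hψ => ?_
    exact mul_le_mul_of_nonneg_left (b2 ψ hψ.2) (hcos ψ (hp0.trans hψ.1) hψ.2)
  rw [e1, e2, e3, ← intervalIntegral.integral_add_adjacent_intervals (b := p)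
    (hc3.intervalIntegrable _ _) (hc3.intervalIntegrable _ _)]
  have h5 : cos p = sin L := by rw [hp, cos_pi_div_two_sub]
  rw [← h5]
  have h6 : 2 * r * sin p = 2 * s₀ * (L * sin p) := by rw [← hLr]; ring
  linarith

end Pool.Agent.N749.CAP
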