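import Pool.Agent.N964.GW.Stm

/-!
# Project GW, leaf Z: the second part of the kernel at the zeros
-/

set_option autoImplicit false

namespace Pool.Agent.N749.GWZ

open Complex
open Pool.Agent.N964.GW (Kp S_zero)

theorem kp_conj (κ t : ℝ) (z : ℂ) :
    (Kp κ (1 - (starRingEnd ℂ) z - (1 / 2 + κ + t * I))).re =
      -(Kp κ (z - (1 / 2 + κ + t * I))).re := by
  have h1 : Kp κ (1 - (starRingEnd ℂ) z - (1 / 2 + κ + t * I)) =
      -(starRingEnd ℂ) (Kp κ (z - (1 / 2 + κ + t * I))) := by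
    have h2 : (1 - (starRingEnd ℂ) z - (1 / 2 + κ + t * I) + κ : ℂ) =
        -(starRingEnd ℂ) (z - (1 / 2 + κ + t * I) + κ) := by
      simp only [map_add, map_sub, map_mul, conj_ofReal, conj_I, map_one, map_div₀, map_ofNat]
      ring
    unfold Kp
    rw [h2, map_div₀, map_sub, map_pow, map_div₀, map_ofNat, map_ofNat, neg_sq, neg_div]
  rw [h1, neg_re, conj_re]

theorem zero : S_zero := by
  intro κ t S m hS
  have h1 : ∑ z ∈ S, (m z : ℝ) * (Kp κ (z - (1 / 2 + κ + t * I))).re =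
      ∑ z ∈ S, -((m z : ℝ) * (Kp κ (z - (1 / 2 + κ + t * I))).re) := by
    have hinv : ∀ z : ℂ, 1 - (starRingEnd ℂ) (1 - (starRingEnd ℂ) z) = z := by
      intro z
      rw [map_sub, map_one, conj_conj]
      ring
    refine Finset.sum_nbij' (fun z => 1 - (starRingEnd ℂ) z) (fun z => 1 - (starRingEnd ℂ) z)
      (fun z hz => (hS z hz).1) (fun z hz => (hS z hz).1) (fun z _ => hinv z)
      (fun z _ => hinv z) (fun z hz => ?_)
    rw [(hS z hz).2, kp_conj]
    ring
  rw [Finset.sum_neg_distrib] at h1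
  linarith

end Pool.Agent.N749.GWZ
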