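import Mathlib

/-!
# The greedy set avoiding `5w + 2x = 5y + 2z`

Internal structure theory: `tau`, `b`, the level sets `L k` of subset sums, the density lemma
`dense`, the separation lemma `sep`, and the description of the greedy set.
-/

namespace Pool.Agent.N749.G52

/-- A set of natural numbers is free of `5w+2x=5y+2z` if this equation has only the trivial
solutions `w = y`, `x = z` in the set. -/
def Free (S : Set ℕ) : Prop :=
  ∀ w ∈ S, ∀ x ∈ S, ∀ y ∈ S, ∀ z ∈ S, 5 * w + 2 * x = 5 * y + 2 * z → w = y ∧ x = z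

/-- `g` is the greedy sequence: `g 0 = 0` and `g (i+1)` is the least integer `m > g i` such that
`{g 0, ..., g i, m}` is free of `5w+2x=5y+2z`. -/
def IsGreedy (g : ℕ → ℕ) : Prop :=
  g 0 = 0 ∧ ∀ i, IsLeast {m : ℕ | g i < m ∧ Free ({n | ∃ j ≤ i, n = g j} ∪ {m})} (g (i + 1))

/-- `a 0 = 0` and `a i = ⌈(5 + 7 (a 0 + ... + a (i-1))) / 2⌉` for `i ≥ 1`. -/
def IsA (a : ℕ → ℕ) : Prop :=
  a 0 = 0 ∧ ∀ i ≥ 1, a i = ⌈((5 + 7 * ∑ j ∈ Finset.range i, a j : ℕ) : ℚ) / 2⌉₊

/-- partial sums -/
def tau : ℕ → ℕ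
  | 0 => 0
  | k + 1 => tau k + (7 * tau k + 6) / 2

/-- the terms -/
def b (k : ℕ) : ℕ := (7 * tau k + 6) / 2

/-- subset sums of `b 0, ..., b (k-1)` -/
def L : ℕ → Set ℕ
  | 0 => {0}
  | k + 1 => L k ∪ {n | ∃ m ∈ L k, n = b k + m}

lemma tau_succ (k : ℕ) : tau (k + 1) = tau k + b k := rfl

lemma b_up (k : ℕ) : 2 * b k ≤ 7 * tau k + 6 := by unfold b; omega
lemma b_lo (k : ℕ) : 7 * tau k + 5 ≤ 2 * b k := by unfold b; omega

lemma zero_mem (k : ℕ) : 0 ∈ L k := by
  induction k with
  | zero => simp [L]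
  | succ k ih => exact Or.inl ih

lemma L_le {k n : ℕ} (h : n ∈ L k) : n ≤ tau k := by
  induction k generalizing n with
  | zero => simp [L] at h; simp [h]
  | succ k ih =>
    rw [tau_succ]
    rcases h with h | ⟨m, hm, rfl⟩
    · have := ih h; omega
    · have := ih hm; omega

lemma L_mono {k l : ℕ} (h : k ≤ l) : L k ⊆ L l := by
  induction l, h using Nat.le_induction with
  | base => exact le_rfl
  | succ l _ ih => exact ih.trans Set.subset_union_left

lemma tau_mono {k l : ℕ} (h : k ≤ l) : tau k ≤ tau l := by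
  induction l, h using Nat.le_induction with
  | base => exact le_rfl
  | succ l _ ih => rw [tau_succ]; omega

lemma b_mono {k l : ℕ} (h : k ≤ l) : b k ≤ b l := by
  have := tau_mono h
  unfold b; omega

lemma tau_lt_b (k : ℕ) : tau k < b k := by have := b_lo k; omega

lemma le_tau (k : ℕ) : k ≤ tau k := by
  induction k with
  | zero => simp
  | succ k ih => rw [tau_succ]; have := tau_lt_b k; omega

lemma dense (k : ℕ) : ∀ v : ℤ, -5 * (tau k : ℤ) - 4 ≤ v → v ≤ 7 * (tau k : ℤ) + 4 →
    ∃ x ∈ L k, ∃ y ∈ L k, ∃ z ∈ L k, |v - (2 * (x : ℤ) + 5 * y - 5 * z)| ≤ 4 := by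
  induction k with
  | zero =>
    intro v h1 h2
    refine ⟨0, zero_mem 0, 0, zero_mem 0, 0, zero_mem 0, ?_⟩
    simp only [tau] at h1 h2
    rw [abs_le]; constructor <;> push_cast at * <;> omega
  | succ k ih =>
    intro v h1 h2
    have hu := b_up k
    have hl := b_lo k
    rw [tau_succ] at h1 h2
    push_cast at h1 h2
    have lift : ∀ x ∈ L k, b k + x ∈ L (k + 1) := fun x hx => Or.inr ⟨x, hx, rfl⟩
    have stay : ∀ x ∈ L k, x ∈ L (k + 1) := fun x hx => Or.inl hx
    by_cases c1 : v ≤ -5 * (b k : ℤ) + 7 * tau k + 4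
    · obtain ⟨x, hx, y, hy, z, hz, h⟩ := ih (v + 5 * b k) (by omega) (by omega)
      refine ⟨x, stay x hx, y, stay y hy, b k + z, lift z hz, ?_⟩
      rw [abs_le] at h ⊢; push_cast; omega
    by_cases c2 : v ≤ -3 * (b k : ℤ) + 7 * tau k + 4
    · obtain ⟨x, hx, y, hy, z, hz, h⟩ := ih (v + 3 * b k) (by omega) (by omega)
      refine ⟨b k + x, lift x hx, y, stay y hy, b k + z, lift z hz, ?_⟩
      rw [abs_le] at h ⊢; push_cast; omega
    by_cases c3 : v ≤ 7 * tau k + 4
    · obtain ⟨x, hx, y, hy, z, hz, h⟩ := ih v (by omega) (by omega)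
      exact ⟨x, stay x hx, y, stay y hy, z, stay z hz, h⟩
    by_cases c4 : v ≤ 2 * (b k : ℤ) + 7 * tau k + 4
    · obtain ⟨x, hx, y, hy, z, hz, h⟩ := ih (v - 2 * b k) (by omega) (by omega)
      refine ⟨b k + x, lift x hx, y, stay y hy, z, stay z hz, ?_⟩
      rw [abs_le] at h ⊢; push_cast; omega
    by_cases c5 : v ≤ 5 * (b k : ℤ) + 7 * tau k + 4
    · obtain ⟨x, hx, y, hy, z, hz, h⟩ := ih (v - 5 * b k) (by omega) (by omega)
      refine ⟨x, stay x hx, b k + y, lift y hy, z, stay z hz, ?_⟩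
      rw [abs_le] at h ⊢; push_cast; omega
    · obtain ⟨x, hx, y, hy, z, hz, h⟩ := ih (v - 7 * b k) (by omega) (by omega)
      refine ⟨b k + x, lift x hx, b k + y, lift y hy, z, stay z hz, ?_⟩
      rw [abs_le] at h ⊢; push_cast; omega

lemma sep (k : ℕ) : ∀ x ∈ L k, ∀ y ∈ L k, ∀ z ∈ L k, ∀ w ∈ L k,
    -4 ≤ 2 * ((x : ℤ) - y) - 5 * ((z : ℤ) - w) → 2 * ((x : ℤ) - y) - 5 * ((z : ℤ) - w) ≤ 4 →
    x = y ∧ z = w := by
  induction k with
  | zero =>
    intro x hx y hy z hz w hw _ _
    simp only [L, Set.mem_singleton_iff] at hx hy hz hw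
    omega
  | succ k ih =>
    have hl := b_lo k
    intro x hx y hy z hz w hw h1 h2
    rcases hx with hx | ⟨x', hx', rfl⟩ <;> rcases hy with hy | ⟨y', hy', rfl⟩ <;>
    rcases hz with hz | ⟨z', hz', rfl⟩ <;> rcases hw with hw | ⟨w', hw', rfl⟩ <;>
    push_cast at h1 h2
    · exact ih x hx y hy z hz w hw h1 h2
    · exfalso; have := L_le hx; have := L_le hy; have := L_le hz; have := L_le hw'; omega
    · exfalso; have := L_le hx; have := L_le hy; have := L_le hz'; have := L_le hw; omega
    · have := ih x hx y hy z' hz' w' hw' (by omega) (by omega); omega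
    · exfalso; have := L_le hx; have := L_le hy'; have := L_le hz; have := L_le hw; omega
    · exfalso; have := L_le hx; have := L_le hy'; have := L_le hz; have := L_le hw'; omega
    · exfalso; have := L_le hx; have := L_le hy'; have := L_le hz'; have := L_le hw; omega
    · exfalso; have := L_le hx; have := L_le hy'; have := L_le hz'; have := L_le hw'; omega
    · exfalso; have := L_le hx'; have := L_le hy; have := L_le hz; have := L_le hw; omega
    · exfalso; have := L_le hx'; have := L_le hy; have := L_le hz; have := L_le hw'; omega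
    · exfalso; have := L_le hx'; have := L_le hy; have := L_le hz'; have := L_le hw; omega
    · exfalso; have := L_le hx'; have := L_le hy; have := L_le hz'; have := L_le hw'; omega
    · have := ih x' hx' y' hy' z hz w hw (by omega) (by omega); omega
    · exfalso; have := L_le hx'; have := L_le hy'; have := L_le hz; have := L_le hw'; omega
    · exfalso; have := L_le hx'; have := L_le hy'; have := L_le hz'; have := L_le hw; omega
    · have := ih x' hx' y' hy' z' hz' w' hw' (by omega) (by omega); omega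

/-- the full set of subset sums -/
def A : Set ℕ := {n | ∃ k, n ∈ L k}

/-- the candidate for the greedy set -/
def S : Set ℕ := {n | n / 5 ∈ A}

lemma zero_mem_A : 0 ∈ A := ⟨0, zero_mem 0⟩

lemma free_S : Free S := by
  intro w hw x hx y hy z hz h
  obtain ⟨k1, h1⟩ := hw
  obtain ⟨k2, h2⟩ := hx
  obtain ⟨k3, h3⟩ := hy
  obtain ⟨k4, h4⟩ := hz
  set k := max (max k1 k2) (max k3 k4) with hk
  have h1' := L_mono (show k1 ≤ k by omega) h1
  have h2' := L_mono (show k2 ≤ k by omega) h2
  have h3' := L_mono (show k3 ≤ k by omega) h3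
  have h4' := L_mono (show k4 ≤ k by omega) h4
  have := sep k (z / 5) h4' (x / 5) h2' (w / 5) h1' (y / 5) h3' (by omega) (by omega)
  omega

lemma Free.mono {U V : Set ℕ} (h : U ⊆ V) (hV : Free V) : Free U :=
  fun w hw x hx y hy z hz e => hV w (h hw) x (h hx) y (h hy) z (h hz) e

lemma mem_L_of_le {j m n : ℕ} (h : n ∈ L m) (hn : n ≤ tau j) : n ∈ L j := by
  induction m with
  | zero => exact L_mono (Nat.zero_le j) h
  | succ m ih =>
    by_cases hmj : m + 1 ≤ j
    · exact L_mono hmj h
    · rcases h with h | ⟨m', hm', rfl⟩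
      · exact ih h
      · exfalso
        have := b_mono (show j ≤ m by omega)
        have := tau_lt_b j
        omega

/-- the gap case -/
lemma gap (k u r : ℕ) (h1 : tau k < u) (h2 : u < b k) (hr : r ≤ 4) :
    ¬ Free ({n | n ∈ S ∧ n < 5 * u + r} ∪ {5 * u + r}) := by
  intro hF
  have hu := b_up k
  obtain ⟨x, hx, y, hy, z, hz, h⟩ := dense k (2 * u) (by omega) (by omega)
  rw [abs_le] at h
  have hx' := L_le hx
  have hy' := L_le hy
  have hz' := L_le hz
  have memS : ∀ m ∈ L k, ∀ e ≤ 4, 5 * m + e ∈ ({n | n ∈ S ∧ n < 5 * u + r} ∪ {5 * u + r} : Set ℕ) := by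
    intro m hm e he
    left
    refine ⟨⟨k, ?_⟩, ?_⟩
    · have : (5 * m + e) / 5 = m := by omega
      rw [this]; exact hm
    · have := L_le hm; omega
  -- e = 2(u-x) - 5(y-z)
  by_cases he : 0 ≤ 2 * ((u : ℤ) - x) - 5 * ((y : ℤ) - z)
  · obtain ⟨e, he'⟩ := Int.eq_ofNat_of_zero_le he
    have := hF (5 * y + e) (memS y hy e (by omega)) (5 * x + r) (memS x hx r hr)
      (5 * z + 0) (memS z hz 0 (by omega)) (5 * u + r) (Or.inr rfl) (by omega)
    omega
  · obtain ⟨e, he'⟩ := Int.eq_ofNat_of_zero_le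
      (show 0 ≤ -(2 * ((u : ℤ) - x) - 5 * ((y : ℤ) - z)) by omega)
    have := hF (5 * y + 0) (memS y hy 0 (by omega)) (5 * x + r) (memS x hx r hr)
      (5 * z + e) (memS z hz e (by omega)) (5 * u + r) (Or.inr rfl) (by omega)
    omega

lemma not_free_of_not_mem : ∀ g : ℕ, g ∉ S → ¬ Free ({n | n ∈ S ∧ n < g} ∪ {g}) := by
  intro g
  induction g using Nat.strong_induction_on with
  | _ g ih =>
    intro hg
    obtain ⟨u, r, hr, rfl⟩ : ∃ u r, r ≤ 4 ∧ g = 5 * u + r := ⟨g / 5, g % 5, by omega, by omega⟩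
    have hu : u ∉ A := by
      intro h; apply hg
      change (5 * u + r) / 5 ∈ A
      have : (5 * u + r) / 5 = u := by omega
      rw [this]; exact h
    have hex : ∃ k, u < b k := ⟨u, by have := le_tau u; have := tau_lt_b u; omega⟩
    classical
    have hk := Nat.find_spec hex
    have hmin : ∀ m < Nat.find hex, ¬ u < b m := fun m hm => Nat.find_min hex hm
    set k := Nat.find hex with hkdef
    by_cases hgap : tau k < u
    · exact gap k u r hgap hk hr
    · rcases k with _ | j
      · exfalso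
        have h0 : u = 0 := by simp [tau] at hgap; omega
        exact hu (h0 ▸ zero_mem_A)
      · have hbj : b j ≤ u := by have := hmin j (by omega); omega
        rw [tau_succ] at hgap
        obtain ⟨u', rfl⟩ : ∃ u', u = b j + u' := ⟨u - b j, by omega⟩
        have hu' : u' ≤ tau j := by omega
        have hbpos : 0 < b j := by have := tau_lt_b j; omega
        have hu'A : u' ∉ A := by
          rintro ⟨m, hm⟩
          exact hu ⟨j + 1, Or.inr ⟨u', mem_L_of_le hm hu', rfl⟩⟩
        have hg' : 5 * u' + r ∉ S := by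
          intro h
          change (5 * u' + r) / 5 ∈ A at h
          have : (5 * u' + r) / 5 = u' := by omega
          rw [this] at h; exact hu'A h
        have hI := ih (5 * u' + r) (by omega) hg'
        intro hF
        apply hI
        have key : ∀ n ∈ ({n | n ∈ S ∧ n < 5 * u' + r} ∪ {5 * u' + r} : Set ℕ),
            n + 5 * b j ∈ ({n | n ∈ S ∧ n < 5 * (b j + u') + r} ∪ {5 * (b j + u') + r} : Set ℕ) := by
          rintro n (⟨hn, hlt⟩ | hn)
          · left
            obtain ⟨m, hm⟩ := hn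
            have hm' : n / 5 ∈ L j := mem_L_of_le hm (by omega)
            refine ⟨⟨j + 1, Or.inr ⟨n / 5, hm', by omega⟩⟩, by omega⟩
          · right
            have hn : n = 5 * u' + r := hn
            change n + 5 * b j = 5 * (b j + u') + r
            omega
        intro w hw x hx y hy z hz e
        have := hF _ (key w hw) _ (key x hx) _ (key y hy) _ (key z hz) (by omega)
        omega

lemma exists_gt (n : ℕ) : ∃ m, n < m ∧ m ∈ S := by
  refine ⟨5 * b n, by have := le_tau n; have := tau_lt_b n; omega, n + 1, Or.inr ⟨0, zero_mem n, by omega⟩⟩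

/-- the next element of `S` after `n` -/
noncomputable def nxt (n : ℕ) : ℕ := sInf {m | n < m ∧ m ∈ S}

lemma nxt_mem (n : ℕ) : n < nxt n ∧ nxt n ∈ S := Nat.sInf_mem (exists_gt n)

lemma nxt_least {n m : ℕ} (h1 : n < m) (h2 : m ∈ S) : nxt n ≤ m := Nat.sInf_le ⟨h1, h2⟩

lemma isLeast_nxt {n : ℕ} (_hn : n ∈ S) :
    IsLeast {m : ℕ | n < m ∧ Free ({s | s ∈ S ∧ s ≤ n} ∪ {m})} (nxt n) := by
  refine ⟨⟨(nxt_mem n).1, ?_⟩, ?_⟩
  · apply Free.mono _ free_S
    rintro s (⟨hs, _⟩ | hs)
    · exact hs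
    · rw [show s = nxt n from hs]; exact (nxt_mem n).2
  · rintro m ⟨hm, hF⟩
    by_contra hlt
    have hmS : m ∉ S := fun h => hlt (nxt_least hm h)
    apply not_free_of_not_mem m hmS
    have : ({s | s ∈ S ∧ s < m} : Set ℕ) ⊆ {s | s ∈ S ∧ s ≤ n} := by
      rintro s ⟨hs, hsm⟩
      refine ⟨hs, ?_⟩
      by_contra hsn
      have := nxt_least (show n < s by omega) hs
      omega
    exact Free.mono (Set.union_subset_union_left _ this) hF

lemma greedy_iff (g : ℕ → ℕ) (hg : IsGreedy g) :
    ∀ i, g i ∈ S ∧ {n | ∃ j ≤ i, n = g j} = {s | s ∈ S ∧ s ≤ g i} := by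
  intro i
  induction i with
  | zero =>
    have h0 : g 0 ∈ S := by rw [hg.1]; exact zero_mem_A
    refine ⟨h0, ?_⟩
    ext n
    constructor
    · rintro ⟨j, hj, rfl⟩
      have : j = 0 := by omega
      subst this
      exact ⟨h0, le_rfl⟩
    · rintro ⟨_, hn⟩
      rw [hg.1] at hn
      exact ⟨0, le_rfl, by rw [hg.1]; omega⟩
  | succ i ih =>
    have h1 := hg.2 i
    rw [ih.2] at h1
    have h2 := isLeast_nxt ih.1
    have h3 : g (i + 1) = nxt (g i) := h1.unique h2
    have hS : g (i + 1) ∈ S := by rw [h3]; exact (nxt_mem _).2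
    have hlt : g i < g (i + 1) := by rw [h3]; exact (nxt_mem _).1
    refine ⟨hS, ?_⟩
    ext n
    constructor
    · rintro ⟨j, hj, rfl⟩
      rcases Nat.lt_or_ge i j with hj' | hj'
      · have : j = i + 1 := by omega
        subst this
        exact ⟨hS, le_rfl⟩
      · have : g j ∈ {n | ∃ j ≤ i, n = g j} := ⟨j, hj', rfl⟩
        rw [ih.2] at this
        exact ⟨this.1, by have := this.2; omega⟩
    · rintro ⟨hn, hle⟩
      by_cases hni : n ≤ g i
      · have : n ∈ {s | s ∈ S ∧ s ≤ g i} := ⟨hn, hni⟩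
        rw [← ih.2] at this
        obtain ⟨j, hj, e⟩ := this
        exact ⟨j, by omega, e⟩
      · refine ⟨i + 1, le_rfl, ?_⟩
        have := nxt_least (show g i < n by omega) hn
        omega

lemma range_greedy (g : ℕ → ℕ) (hg : IsGreedy g) : Set.range g = S := by
  have hlt : ∀ i, g i < g (i + 1) := fun i => (hg.2 i).1.1
  have hge : ∀ i, i ≤ g i := by
    intro i
    induction i with
    | zero => exact Nat.zero_le _
    | succ i ih => have := hlt i; omega
  ext n
  constructor
  · rintro ⟨i, rfl⟩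
    exact (greedy_iff g hg i).1
  · intro hn
    have h := (greedy_iff g hg n).2
    have : n ∈ {s | s ∈ S ∧ s ≤ g n} := ⟨hn, hge n⟩
    rw [← h] at this
    obtain ⟨j, _, e⟩ := this
    exact ⟨j, e.symm⟩

lemma exists_greedy : ∃ g, IsGreedy g := by
  let g : ℕ → ℕ := fun i => nxt^[i] 0
  have gs : ∀ i, g (i + 1) = nxt (g i) := fun i => Function.iterate_succ_apply' nxt i 0
  have g0 : g 0 = 0 := rfl
  have inv : ∀ i, g i ∈ S ∧ {n | ∃ j ≤ i, n = g j} = {s | s ∈ S ∧ s ≤ g i} := by
    intro i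
    induction i with
    | zero =>
      have zS : g 0 ∈ S := by rw [g0]; exact zero_mem_A
      refine ⟨zS, ?_⟩
      ext n
      constructor
      · rintro ⟨j, hj, rfl⟩
        have : j = 0 := by omega
        subst this
        exact ⟨zS, le_rfl⟩
      · rintro ⟨_, hn⟩
        exact ⟨0, le_rfl, by rw [g0] at hn ⊢; omega⟩
    | succ i ih =>
      have h3 := gs i
      have hS : g (i + 1) ∈ S := by rw [h3]; exact (nxt_mem _).2
      have hlt : g i < g (i + 1) := by rw [h3]; exact (nxt_mem _).1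
      refine ⟨hS, ?_⟩
      ext n
      constructor
      · rintro ⟨j, hj, rfl⟩
        rcases Nat.lt_or_ge i j with hj' | hj'
        · have : j = i + 1 := by omega
          subst this
          exact ⟨hS, le_rfl⟩
        · have : g j ∈ {n | ∃ j ≤ i, n = g j} := ⟨j, hj', rfl⟩
          rw [ih.2] at this
          exact ⟨this.1, by have := this.2; omega⟩
      · rintro ⟨hn, hle⟩
        by_cases hni : n ≤ g i
        · have : n ∈ {s | s ∈ S ∧ s ≤ g i} := ⟨hn, hni⟩
          rw [← ih.2] at this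
          obtain ⟨j, hj, e⟩ := this
          exact ⟨j, by omega, e⟩
        · refine ⟨i + 1, le_rfl, ?_⟩
          have := nxt_least (show g i < n by omega) hn
          omega
  refine ⟨g, g0, fun i => ?_⟩
  rw [(inv i).2, gs i]
  exact isLeast_nxt (inv i).1

lemma ceil_half (n : ℕ) : ⌈((5 + 7 * n : ℕ) : ℚ) / 2⌉₊ = (7 * n + 6) / 2 := by
  rw [Nat.ceil_eq_iff (by omega)]
  have h1 : 7 * n + 5 ≤ 2 * ((7 * n + 6) / 2) := by omega
  have h2 : 2 * ((7 * n + 6) / 2 - 1) < 7 * n + 5 := by omega
  have h1' : ((7 * n + 5 : ℕ) : ℚ) ≤ ((2 * ((7 * n + 6) / 2) : ℕ) : ℚ) := by exact_mod_cast h1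
  have h2' : ((2 * ((7 * n + 6) / 2 - 1) : ℕ) : ℚ) < ((7 * n + 5 : ℕ) : ℚ) := by exact_mod_cast h2
  constructor
  · rw [lt_div_iff₀ (by norm_num)]
    calc (((7 * n + 6) / 2 - 1 : ℕ) : ℚ) * 2 = ((2 * ((7 * n + 6) / 2 - 1) : ℕ) : ℚ) := by
          rw [Nat.cast_mul]; ring
      _ < ((7 * n + 5 : ℕ) : ℚ) := h2'
      _ = ((5 + 7 * n : ℕ) : ℚ) := by rw [Nat.add_comm]
  · rw [div_le_iff₀ (by norm_num)]
    calc ((5 + 7 * n : ℕ) : ℚ) = ((7 * n + 5 : ℕ) : ℚ) := by rw [Nat.add_comm]
      _ ≤ ((2 * ((7 * n + 6) / 2) : ℕ) : ℚ) := h1'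
      _ = (((7 * n + 6) / 2 : ℕ) : ℚ) * 2 := by rw [Nat.cast_mul]; ring

lemma IsA.eq {a : ℕ → ℕ} (ha : IsA a) :
    ∀ k, ∑ j ∈ Finset.range (k + 1), a j = tau k ∧ a (k + 1) = b k := by
  intro k
  induction k with
  | zero =>
    have h : ∑ j ∈ Finset.range (0 + 1), a j = tau 0 := by simp [ha.1, tau]
    refine ⟨h, ?_⟩
    rw [ha.2 (0 + 1) (by omega), h, ceil_half]; rfl
  | succ k ih =>
    have h : ∑ j ∈ Finset.range (k + 1 + 1), a j = tau (k + 1) := by
      rw [Finset.sum_range_succ, ih.1, ih.2, tau_succ]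
    refine ⟨h, ?_⟩
    rw [ha.2 (k + 1 + 1) (by omega), h, ceil_half]; rfl

lemma exists_isA : ∃ a, IsA a := by
  refine ⟨fun i => if i = 0 then 0 else b (i - 1), by simp, ?_⟩
  have hs : ∀ k, ∑ j ∈ Finset.range (k + 1), (if j = 0 then 0 else b (j - 1)) = tau k := by
    intro k
    induction k with
    | zero => simp [tau]
    | succ k ih => rw [Finset.sum_range_succ, ih, tau_succ]; simp
  intro i hi
  obtain ⟨k, rfl⟩ : ∃ k, i = k + 1 := ⟨i - 1, by omega⟩
  rw [hs k, ceil_half]
  simp [b]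

lemma subset_sums {a : ℕ → ℕ} (ha : IsA a) :
    {x | ∃ F : Finset ℕ, x = ∑ i ∈ F, a i} = A := by
  ext x
  constructor
  · rintro ⟨F, rfl⟩
    have key : ∀ k, ∀ F : Finset ℕ, F ⊆ Finset.range (k + 1) → ∑ i ∈ F, a i ∈ L k := by
      intro k
      induction k with
      | zero =>
        intro F hF
        have : ∑ i ∈ F, a i = 0 := by
          apply Finset.sum_eq_zero
          intro i hi
          have := hF hi
          simp at this
          rw [this, ha.1]
        rw [this]; exact zero_mem 0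
      | succ k ih =>
        intro F hF
        by_cases hk : k + 1 ∈ F
        · rw [← Finset.add_sum_erase F a hk, (ha.eq k).2]
          refine Or.inr ⟨_, ih (F.erase (k + 1)) ?_, rfl⟩
          intro i hi
          rw [Finset.mem_erase] at hi
          have := hF hi.2
          simp only [Finset.mem_range] at this ⊢
          omega
        · refine Or.inl (ih F ?_)
          intro i hi
          have h1 := hF hi
          have h2 : i ≠ k + 1 := fun h => hk (h ▸ hi)
          simp only [Finset.mem_range] at h1 ⊢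
          omega
    refine ⟨F.sup id, key _ F ?_⟩
    intro i hi
    have : i ≤ F.sup id := Finset.le_sup (f := id) hi
    simp only [Finset.mem_range]; omega
  · rintro ⟨k, hk⟩
    have key : ∀ k, ∀ x ∈ L k, ∃ F : Finset ℕ, F ⊆ Finset.range (k + 1) ∧ x = ∑ i ∈ F, a i := by
      intro k
      induction k with
      | zero =>
        intro x hx
        simp only [L, Set.mem_singleton_iff] at hx
        exact ⟨∅, by simp, by simp [hx]⟩
      | succ k ih =>
        intro x hx
        rcases hx with hx | ⟨m, hm, rfl⟩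
        · obtain ⟨F, hF, e⟩ := ih x hx
          exact ⟨F, hF.trans (Finset.range_mono (by omega)), e⟩
        · obtain ⟨F, hF, e⟩ := ih m hm
          have hnot : k + 1 ∉ F := fun h => by have := hF h; simp at this
          refine ⟨insert (k + 1) F, ?_, ?_⟩
          · intro i hi
            rw [Finset.mem_insert] at hi
            rcases hi with rfl | hi
            · simp
            · have := hF hi
              simp only [Finset.mem_range] at this ⊢
              omega
          · rw [Finset.sum_insert hnot, (ha.eq k).2, e]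
    obtain ⟨F, _, e⟩ := key k x hk
    exact ⟨F, e⟩

end Pool.Agent.N749.G52
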