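import Pool.Agent.N585.PT.Defs

/-!
# Project PT (helper585), part 8: correctness of reachability and of the test for trees (helper749)
-/

set_option autoImplicit false

namespace Pool.Agent.N749.PTra

open Pool.Agent.H622R2 Pool.Agent.NPC.N585FP Pool.Agent.N585.PT

/-! ### The iteration -/

/-- The relation of the search. -/
def R (M : List (List Bool)) (w : ℕ) (a b : ℕ) : Prop :=
  adjB M a b = true ∧ b ≠ w ∧ b < M.length

/-- The sets of the search. -/
def S (M : List (List Bool)) (w x : ℕ) (k : ℕ) : List ℕ := (rstep M w)^[k] [x]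

theorem rL_eq (M : List (List Bool)) (w x : ℕ) : rL M w x = S M w x M.length := by
  unfold rL S
  rw [List.foldl_const, List.length_range]

theorem mem_rstep (M : List (List Bool)) (w : ℕ) (T : List ℕ) (b : ℕ) :
    b ∈ rstep M w T ↔ b < M.length ∧ (b ∈ T ∨ (b ≠ w ∧ ∃ a ∈ T, adjB M a b = true)) := by
  unfold rstep
  rw [List.mem_filter, List.mem_range]
  simp

theorem S_succ (M : List (List Bool)) (w x k : ℕ) : S M w x (k + 1) = rstep M w (S M w x k) := by
  unfold S
  rw [Function.iterate_succ_apply']

theorem S_lt (M : List (List Bool)) (w x k : ℕ) (hx : x < M.length) :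
    ∀ b ∈ S M w x k, b < M.length := by
  induction k with
  | zero =>
    intro b hb
    have : b = x := by simpa [S] using hb
    rw [this]
    exact hx
  | succ k _ =>
    intro b hb
    rw [S_succ, mem_rstep] at hb
    exact hb.1

theorem S_mono (M : List (List Bool)) (w x k : ℕ) (hx : x < M.length) :
    ∀ b ∈ S M w x k, b ∈ S M w x (k + 1) := by
  intro b hb
  rw [S_succ, mem_rstep]
  exact ⟨S_lt M w x k hx b hb, Or.inl hb⟩

theorem S_x (M : List (List Bool)) (w x k : ℕ) (hx : x < M.length) : x ∈ S M w x k := by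
  induction k with
  | zero => simp [S]
  | succ k ih => exact S_mono M w x k hx x ih

theorem sound (M : List (List Bool)) (w x k : ℕ) :
    ∀ b ∈ S M w x k, Relation.ReflTransGen (R M w) x b := by
  induction k with
  | zero =>
    intro b hb
    have : b = x := by simpa [S] using hb
    rw [this]
  | succ k ih =>
    intro b hb
    rw [S_succ, mem_rstep] at hb
    obtain ⟨h1, h2 | ⟨h2, a, ha, h3⟩⟩ := hb
    · exact ih b h2
    · exact (ih a ha).tail ⟨h3, h2, h1⟩

/-- The sets stabilise. -/
theorem stab (M : List (List Bool)) (w x : ℕ) (hx : x < M.length) (b : ℕ)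
    (hb : b ∈ S M w x (M.length + 1)) : b ∈ S M w x M.length := by
  classical
  set A : ℕ → Finset ℕ := fun k => (S M w x k).toFinset with hA
  have hmem : ∀ k c, c ∈ A k ↔ c ∈ S M w x k := fun k c => List.mem_toFinset
  have hsub : ∀ k, A k ⊆ A (k + 1) := fun k c hc =>
    (hmem _ _).2 (S_mono M w x k hx c ((hmem _ _).1 hc))
  have hcard : ∀ k, (A k).card ≤ M.length := by
    intro k
    have h1 : A k ⊆ Finset.range M.length := fun c hc =>
      Finset.mem_range.2 (S_lt M w x k hx c ((hmem _ _).1 hc))
    have := Finset.card_le_card h1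
    rwa [Finset.card_range] at this
  have hpos : 0 < (A 0).card := Finset.card_pos.2 ⟨x, (hmem _ _).2 (S_x M w x 0 hx)⟩
  have hstep : ∀ k, A (k + 1) = A k → A (k + 2) = A (k + 1) := by
    intro k hk
    ext c
    have h1 : ∀ c, c ∈ S M w x (k + 1) ↔ c ∈ S M w x k := by
      intro c
      rw [← hmem, ← hmem, hk]
    have g1 : S M w x (k + 2) = rstep M w (S M w x (k + 1)) := S_succ M w x (k + 1)
    have g2 : S M w x (k + 1) = rstep M w (S M w x k) := S_succ M w x k
    have e2 : c ∈ S M w x (k + 1) ↔
        c < M.length ∧ (c ∈ S M w x k ∨ (c ≠ w ∧ ∃ a ∈ S M w x k, adjB M a c = true)) := by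
      rw [g2, mem_rstep]
    rw [hmem, hmem, g1, mem_rstep]
    refine Iff.trans ?_ e2.symm
    simp only [h1]
  have hall : ∀ k, A (k + 1) = A k ∨ k + 1 < (A (k + 1)).card := by
    intro k
    induction k with
    | zero =>
      by_cases h : A (0 + 1) = A 0
      · exact Or.inl h
      · right
        have h1 : (A 0).card < (A (0 + 1)).card :=
          Finset.card_lt_card (lt_of_le_of_ne (hsub 0) (Ne.symm h))
        omega
    | succ k ih =>
      by_cases h : A (k + 1 + 1) = A (k + 1)
      · exact Or.inl h
      · right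
        have h1 : (A (k + 1)).card < (A (k + 1 + 1)).card :=
          Finset.card_lt_card (lt_of_le_of_ne (hsub (k + 1)) (Ne.symm h))
        rcases ih with h2 | h2
        · exact absurd (hstep k h2) h
        · omega
  rcases hall M.length with h | h
  · rw [← hmem] at hb ⊢
    rwa [h] at hb
  · have := hcard (M.length + 1)
    omega

/-- The search is correct. -/
theorem mem_rL (M : List (List Bool)) (w x y : ℕ) (hx : x < M.length) :
    y ∈ rL M w x ↔ Relation.ReflTransGen (R M w) x y := by
  rw [rL_eq]
  constructor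
  · exact sound M w x _ y
  · intro h
    induction h with
    | refl => exact S_x M w x _ hx
    | tail _ hab ih =>
      apply stab M w x hx
      rw [S_succ, mem_rstep]
      exact ⟨hab.2.2, Or.inr ⟨hab.2.1, _, ih, hab.1⟩⟩

theorem adj_iff (M : List (List Bool)) (i j : Fin M.length) :
    adjB M i j = true ↔ (matGraph M).Adj i j := by
  simp [adjB, matGraph, Fin.ext_iff]

/-- The relation on the vertices. -/
theorem rtg_iff (M : List (List Bool)) (w : ℕ) (x y : Fin M.length) :
    Relation.ReflTransGen (R M w) x y ↔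
      Relation.ReflTransGen (fun a b : Fin M.length => (matGraph M).Adj a b ∧ b.1 ≠ w) x y := by
  constructor
  · intro h
    have key : ∀ z : ℕ, Relation.ReflTransGen (R M w) x z → ∃ hz : z < M.length,
        Relation.ReflTransGen (fun a b : Fin M.length => (matGraph M).Adj a b ∧ b.1 ≠ w)
          x ⟨z, hz⟩ := by
      intro z hz
      induction hz with
      | refl => exact ⟨x.2, Relation.ReflTransGen.refl⟩
      | tail _ hab ih =>
        obtain ⟨ha, hr⟩ := ih
        refine ⟨hab.2.2, hr.tail ⟨?_, hab.2.1⟩⟩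
        rw [← adj_iff]
        exact hab.1
    exact (key y h).2
  · intro h
    induction h with
    | refl => exact Relation.ReflTransGen.refl
    | @tail a b _ hab ih => exact ih.tail ⟨(adj_iff M a b).2 hab.1, hab.2, b.2⟩

theorem ra_iff (M : List (List Bool)) (w x y : Fin M.length) :
    raB M w x y = true ↔ RA (matGraph M) w x y := by
  have h1 : raB M w x y = true ↔ (x.1 ≠ w.1 ∧ y.1 ∈ rL M w x) := by
    simp [raB]
  rw [h1, mem_rL M w x y x.2, rtg_iff]
  unfold RA
  have h2 : (fun a b : Fin M.length => (matGraph M).Adj a b ∧ b.1 ≠ w.1) =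
      fun a b : Fin M.length => (matGraph M).Adj a b ∧ b ≠ w := by
    funext a b
    rw [ne_eq, ne_eq, Fin.ext_iff]
  rw [h2, ne_eq, ne_eq, Fin.ext_iff]

/-! ### Trees -/

section

variable {V : Type} {G : SimpleGraph V}

theorem walk_ra {u z v : V} (p : G.Walk z v) (h : u ∉ p.support) :
    Relation.ReflTransGen (fun a b => G.Adj a b ∧ b ≠ u) z v := by
  induction p with
  | nil => exact Relation.ReflTransGen.refl
  | cons hab p ih =>
    rw [SimpleGraph.Walk.support_cons, List.mem_cons, not_or] at h
    refine Relation.ReflTransGen.head ⟨hab, ?_⟩ (ih h.2)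
    intro h1
    apply h.2
    rw [← h1]
    exact p.start_mem_support

theorem ra_walk {u z v : V} (hz : z ≠ u)
    (h : Relation.ReflTransGen (fun a b => G.Adj a b ∧ b ≠ u) z v) :
    ∃ p : G.Walk z v, u ∉ p.support := by
  induction h using Relation.ReflTransGen.head_induction_on with
  | refl => exact ⟨SimpleGraph.Walk.nil, by simpa using hz.symm⟩
  | head hab _ ih =>
    obtain ⟨p, hp⟩ := ih hab.2
    refine ⟨SimpleGraph.Walk.cons hab.1 p, ?_⟩
    rw [SimpleGraph.Walk.support_cons, List.mem_cons, not_or]
    exact ⟨hz.symm, hp⟩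

/-- Acyclicity. -/
theorem acyclic_iff : G.IsAcyclic ↔ ∀ u z v : V, G.Adj u z → G.Adj u v → z ≠ v →
    ¬ RA G u z v := by
  classical
  constructor
  · intro hG u z v huz huv hzv hra
    obtain ⟨p, hp⟩ := ra_walk hra.1 hra.2
    have hq : (SimpleGraph.Walk.cons huz.symm
        (SimpleGraph.Walk.cons huv SimpleGraph.Walk.nil)).IsPath := by
      rw [SimpleGraph.Walk.isPath_def]
      simp only [SimpleGraph.Walk.support_cons, SimpleGraph.Walk.support_nil, List.nodup_cons,
        List.mem_cons, List.not_mem_nil, or_false, not_or, not_false_eq_true, List.nodup_nil,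
        and_true]
      exact ⟨⟨huz.ne.symm, hzv⟩, huv.ne⟩
    have h1 := (hG.subsingleton_path z v).elim ⟨p.bypass, p.bypass_isPath⟩ ⟨_, hq⟩
    have h2 : p.bypass = SimpleGraph.Walk.cons huz.symm
        (SimpleGraph.Walk.cons huv SimpleGraph.Walk.nil) := congrArg Subtype.val h1
    have h3 : u ∈ p.bypass.support := by
      rw [h2]
      simp
    exact hp (p.support_bypass_subset_support h3)
  · intro h
    rw [SimpleGraph.isAcyclic_iff_forall_adj_isBridge]
    intro v w hvw
    rw [SimpleGraph.isBridge_iff_forall_walk_mem_edges]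
    intro p
    by_contra hp
    have hpb : s(v, w) ∉ p.bypass.edges := fun h1 => hp (p.edges_bypass_subset_edges h1)
    have hpath := p.bypass_isPath
    generalize p.bypass = q at hpb hpath
    cases q with
    | nil => exact hvw.ne rfl
    | cons hab q =>
      rename_i z
      rw [SimpleGraph.Walk.edges_cons, List.mem_cons, not_or] at hpb
      rw [SimpleGraph.Walk.cons_isPath_iff] at hpath
      have hzw : z ≠ w := by
        rintro rfl
        exact hpb.1 rfl
      exact h v z w hab hvw hzw ⟨hab.ne.symm, walk_ra q hpath.2⟩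

end

theorem tree_iff (M : List (List Bool)) : treeB M = true ↔ (matGraph M).IsTree := by
  have h1 : treeB M = true ↔ ((M.length ≠ 0 ∧ ∀ y < M.length, raB M M.length 0 y = true) ∧
      ∀ u < M.length, ∀ z < M.length, ∀ v < M.length,
        adjB M u z = true → adjB M u v = true → z ≠ v → ¬ raB M u z v = true) := by
    unfold treeB
    simp only [Bool.and_eq_true, Bool.or_eq_true, Bool.not_eq_true', List.all_eq_true,
      List.mem_range, decide_eq_false_iff_not, Bool.and_eq_false_iff, Bool.not_eq_false']
    refine and_congr (and_congr Iff.rfl Iff.rfl) ?_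
    refine forall₂_congr fun u _ => forall₂_congr fun z _ => forall₂_congr fun v _ => ?_
    cases adjB M u z <;> cases adjB M u v <;> cases raB M u z v <;> simp
  rw [h1]
  have h2 : (∀ u < M.length, ∀ z < M.length, ∀ v < M.length,
      adjB M u z = true → adjB M u v = true → z ≠ v → ¬ raB M u z v = true) ↔
      (matGraph M).IsAcyclic := by
    rw [acyclic_iff]
    constructor
    · intro h u z v huz huv hzv hra
      exact h u u.2 z z.2 v v.2 ((adj_iff M u z).2 huz) ((adj_iff M u v).2 huv)
        (fun h3 => hzv (Fin.ext h3)) ((ra_iff M u z v).2 hra)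
    · intro h u hu z hz v hv huz huv hzv hra
      exact h ⟨u, hu⟩ ⟨z, hz⟩ ⟨v, hv⟩ ((adj_iff M ⟨u, hu⟩ ⟨z, hz⟩).1 huz)
        ((adj_iff M ⟨u, hu⟩ ⟨v, hv⟩).1 huv) (fun h3 => hzv (congrArg Fin.val h3))
        ((ra_iff M ⟨u, hu⟩ ⟨z, hz⟩ ⟨v, hv⟩).1 hra)
  have h3 : (M.length ≠ 0 ∧ ∀ y < M.length, raB M M.length 0 y = true) ↔
      (matGraph M).Connected := by
    have key : ∀ (hn : 0 < M.length) (y : Fin M.length), raB M M.length 0 y = true ↔
        (matGraph M).Reachable ⟨0, hn⟩ y := by
      intro hn y
      have h4 : raB M M.length 0 y = true ↔ (0 ≠ M.length ∧ y.1 ∈ rL M M.length 0) := by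
        simp [raB]
      rw [h4, mem_rL M M.length 0 y hn]
      have h5 := rtg_iff M M.length ⟨0, hn⟩ y
      have h6 : (fun a b : Fin M.length => (matGraph M).Adj a b ∧ b.1 ≠ M.length) =
          (matGraph M).Adj := by
        funext a b
        have := b.2.ne
        simp [this]
      rw [h6] at h5
      rw [SimpleGraph.reachable_iff_reflTransGen]
      constructor
      · rintro ⟨-, h7⟩
        exact h5.1 h7
      · intro h7
        exact ⟨hn.ne, h5.2 h7⟩
    constructor
    · rintro ⟨hn, h⟩
      have hn' : 0 < M.length := Nat.pos_of_ne_zero hn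
      have : Nonempty (Fin M.length) := ⟨⟨0, hn'⟩⟩
      refine ⟨fun x y => ?_⟩
      exact (((key hn' x).1 (h x x.2)).symm).trans ((key hn' y).1 (h y y.2))
    · intro h
      obtain ⟨x⟩ := h.nonempty
      have hn' : 0 < M.length := lt_of_le_of_lt (Nat.zero_le _) x.2
      refine ⟨hn'.ne', fun y hy => ?_⟩
      exact (key hn' ⟨y, hy⟩).2 (h.preconnected _ _)
  rw [h2, h3]
  constructor
  · rintro ⟨h4, h5⟩
    exact ⟨h4, h5⟩
  · intro h4
    exact ⟨h4.connected, h4.isAcyclic⟩

/-- **(PT/8) Correctness of the basic computations.** -/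
theorem stmRa : StmRa := fun M => ⟨ra_iff M, tree_iff M⟩

end Pool.Agent.N749.PTra
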